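import Pool.Agent.J6H13.GW.Box
import Pool.Agent.J6H13.RW.CntV
import Pool.Agent.J6H13.RW.Dens

/-! Assembly. -/

set_option autoImplicit false

namespace Pool.Agent.J6H13.GW

open Finset
open Pool.Agent.J6H13.RW

open Classical in
theorem main_ofG (h : StGW) : ∃ (c : ℝ) (C : ℕ), 0 < c ∧ ∀ k : ℕ, 1 ≤ k → ∃ (N : ℕ) (δ X₀ : ℝ), 0 < δ ∧
    ∀ X : ℝ, X₀ ≤ X → ∀ V : Finset ℕ, N ≤ V.card → (∀ p ∈ V, p.Prime ∧ (p : ℝ) ≤ δ * ffG X) →
      ∃ s : ℕ, k ≤ s ∧ s ≤ C * k ∧ (c / s) ^ s * ((V.card).choose s : ℝ) ≤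
        (((V.powersetCard s).filter (fun S => GX δ X S)).card : ℝ) := by
  obtain ⟨C, hC1, hbox⟩ := box_G h
  obtain ⟨E, hE⟩ : ∃ E : ℝ, E = 4 * (C + 1) * C * Real.exp 1 := ⟨_, rfl⟩
  have hCR : (1 : ℝ) ≤ C := by exact_mod_cast hC1
  have hE0 : 0 < E := by rw [hE]; positivity
  refine ⟨1 / (2 * E), C, by positivity, fun k hk => ?_⟩
  obtain ⟨T, K, hT1, hTC, hK, N₀, δ, hδ, X₀, hgood⟩ := hbox k hk
  obtain ⟨N, hN1, hN⟩ := bad_genV T K hK
  refine ⟨2 * (N + N₀ + 1), δ, X₀, hδ, fun X hX V hV hVp => ?_⟩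
  set V' := V.filter (fun p => N₀ < p) with hV'
  have hV'V : V' ⊆ V := filter_subset _ _
  have hcardV : V.card ≤ V'.card + (N₀ + 1) := by
    have h1 : V ⊆ V' ∪ range (N₀ + 1) := by
      intro p hp
      rw [mem_union, hV', mem_filter, mem_range]
      by_cases h : N₀ < p
      · exact Or.inl ⟨hp, h⟩
      · exact Or.inr (by omega)
    have h2 := (card_le_card h1).trans (card_union_le _ _)
    rwa [card_range] at h2
  have hNV' : N ≤ V'.card := by omega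
  have hhalf : (1 / 2 : ℝ) * V.card ≤ V'.card := by
    have h1 : V.card ≤ 2 * V'.card := by omega
    have h2 : (V.card : ℝ) ≤ 2 * V'.card := by exact_mod_cast h1
    linarith
  have hbad := hN 0 (fun i => k ≤ i ∧ i ≤ C * k) (fun S => GX δ X S) V'
    (fun hh h0 h1 _ => hgood X hX hh (fun x hx => by
      have h2 := mem_filter.1 (h0 x hx)
      exact ⟨(hVp _ h2.1).1, h2.2, (hVp _ h2.1).2⟩) h1) hNV' (by
    intro p hp hpT hpq
    exact absurd (dvd_zero p) hpq)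
  obtain ⟨s, hks, hsC, hsT, hcount⟩ := count_gen T k (C * k) (fun S => GX δ X S) V' (hN1.trans hNV') hbad
  refine ⟨s, hks, hsC, ?_⟩
  have hs1 : 1 ≤ s := hk.trans hks
  have hsR : (1 : ℝ) ≤ s := by exact_mod_cast hs1
  have hspos : (0 : ℝ) < s := by linarith
  have hksR : (k : ℝ) ≤ s := by exact_mod_cast hks
  have hTs : T ≤ C * s ^ 2 := hTC.trans (Nat.mul_le_mul_left _ (Nat.pow_le_pow_left hks 2))
  set G := (((V.powersetCard s).filter (fun S => GX δ X S)).card : ℝ) with hG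
  have hG' : (((V'.powersetCard s).filter (fun S => GX δ X S)).card : ℝ) ≤ G := by
    rw [hG]
    have := card_le_card (filter_subset_filter (fun S => GX δ X S)
      (powersetCard_mono (n := s) hV'V))
    exact_mod_cast this
  have hG0 : 0 ≤ G := Nat.cast_nonneg _
  have hs0 : (0 : ℝ) < s.factorial := by exact_mod_cast Nat.factorial_pos s
  have hfac : 2 * (((C * k : ℕ) : ℝ) + 1) ≤ (4 * ((C : ℝ) + 1)) ^ s := by
    have h1 : (s : ℝ) ≤ 2 ^ s := by exact_mod_cast (Nat.lt_pow_self (by norm_num)).le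
    have h2 : ((C : ℝ) + 1) ≤ ((C : ℝ) + 1) ^ s := le_self_pow₀ (by linarith) (by omega)
    have h3 : (2 : ℝ) ≤ 2 ^ s := le_self_pow₀ (by norm_num) (by omega)
    push_cast
    have h4 : (C : ℝ) * k ≤ C * s := mul_le_mul_of_nonneg_left hksR (by linarith)
    calc 2 * ((C : ℝ) * k + 1) ≤ 2 * (C * s + s) := by linarith
      _ = 2 * s * ((C : ℝ) + 1) := by ring
      _ ≤ 2 ^ s * 2 ^ s * ((C : ℝ) + 1) ^ s := by gcongr
      _ = (4 * ((C : ℝ) + 1)) ^ s := by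
        rw [← mul_pow, ← mul_pow]
        norm_num
  have h1 : (V'.card : ℝ) ^ s ≤ (4 * ((C : ℝ) + 1)) ^ s * (T : ℝ) ^ s * G := by
    have h2 : (T.choose s : ℝ) * (s.factorial : ℝ) ≤ (T : ℝ) ^ s := by
      have := Nat.choose_le_pow_div (α := ℝ) s T
      rwa [le_div_iff₀ hs0] at this
    calc (V'.card : ℝ) ^ s ≤ 2 * (((C * k : ℕ) : ℝ) + 1) * (T.choose s : ℝ) * (s.factorial : ℝ) *
          (((V'.powersetCard s).filter (fun S => GX δ X S)).card : ℝ) := hcount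
      _ = 2 * (((C * k : ℕ) : ℝ) + 1) * ((T.choose s : ℝ) * (s.factorial : ℝ)) *
          (((V'.powersetCard s).filter (fun S => GX δ X S)).card : ℝ) := by ring
      _ ≤ (4 * ((C : ℝ) + 1)) ^ s * (T : ℝ) ^ s * G := by gcongr
  have h3 : ((1 / 2 : ℝ) * (V.card : ℝ)) ^ s ≤ (4 * ((C : ℝ) + 1)) ^ s * (T : ℝ) ^ s * G :=
    (pow_le_pow_left₀ (by positivity) hhalf s).trans h1
  have h4 : (V.card.choose s : ℝ) * (s.factorial : ℝ) ≤ (V.card : ℝ) ^ s := by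
    have := Nat.choose_le_pow_div (α := ℝ) s V.card
    rwa [le_div_iff₀ hs0] at this
  have h5 : ((s : ℝ) / Real.exp 1) ^ s ≤ s.factorial := by
    have h6 := Real.pow_div_factorial_le_exp (s : ℝ) hspos.le s
    rw [div_pow, ← Real.exp_nat_mul, mul_one, div_le_iff₀ (Real.exp_pos _)]
    rw [div_le_iff₀ hs0] at h6
    linarith
  have hTpos : (0 : ℝ) < T := by exact_mod_cast (by omega : 0 < T)
  have h7 : (1 / 2 : ℝ) ^ s * (((s : ℝ) / Real.exp 1) ^ s * (V.card.choose s : ℝ)) ≤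
      (4 * ((C : ℝ) + 1)) ^ s * (T : ℝ) ^ s * G := by
    calc (1 / 2 : ℝ) ^ s * (((s : ℝ) / Real.exp 1) ^ s * (V.card.choose s : ℝ))
        ≤ (1 / 2 : ℝ) ^ s * ((s.factorial : ℝ) * (V.card.choose s : ℝ)) := by
          gcongr
      _ = (1 / 2 : ℝ) ^ s * ((V.card.choose s : ℝ) * (s.factorial : ℝ)) := by ring
      _ ≤ (1 / 2 : ℝ) ^ s * (V.card : ℝ) ^ s := by
          gcongr
      _ = (1 / 2 * (V.card : ℝ)) ^ s := by rw [mul_pow]
      _ ≤ _ := h3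
  -- the base
  have h8 : 1 / (2 * E) / s ≤ 1 / 2 * ((s : ℝ) / Real.exp 1) / (4 * ((C : ℝ) + 1) * T) := by
    have h10 : (T : ℝ) ≤ C * (s : ℝ) ^ 2 := by exact_mod_cast hTs
    rw [le_div_iff₀ (by positivity)]
    have hEs : (4 * ((C : ℝ) + 1) * (C * (s : ℝ) ^ 2)) / (E * s) = (s : ℝ) / Real.exp 1 := by
      rw [div_eq_div_iff (by positivity) (Real.exp_pos _).ne', hE]
      ring
    calc 1 / (2 * E) / s * (4 * ((C : ℝ) + 1) * T)
        = 1 / 2 * ((4 * ((C : ℝ) + 1) * T) / (E * s)) := by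
          field_simp
      _ ≤ 1 / 2 * ((4 * ((C : ℝ) + 1) * (C * (s : ℝ) ^ 2)) / (E * s)) := by gcongr
      _ = 1 / 2 * ((s : ℝ) / Real.exp 1) := by rw [hEs]
  calc (1 / (2 * E) / s) ^ s * ((V.card).choose s : ℝ)
      ≤ (1 / 2 * ((s : ℝ) / Real.exp 1) / (4 * ((C : ℝ) + 1) * T)) ^ s * ((V.card).choose s : ℝ) := by
        gcongr
    _ = ((1 / 2 : ℝ) ^ s * (((s : ℝ) / Real.exp 1) ^ s * (V.card.choose s : ℝ))) /
          (4 * ((C : ℝ) + 1) * T) ^ s := by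
        rw [div_pow, mul_pow]
        ring
    _ ≤ ((4 * ((C : ℝ) + 1)) ^ s * (T : ℝ) ^ s * G) / (4 * ((C : ℝ) + 1) * T) ^ s := by gcongr
    _ = G := by
        rw [← mul_pow]
        exact mul_div_cancel_left₀ G (by positivity)

end Pool.Agent.J6H13.GW
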