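import Mathlib
import Pool.Agent.Y827.HD.Ubs
import Pool.Agent.H318R2.Cr.Prod

/-! An upper bound for the number of the primes `p ≤ H` for which `a - p` is `B` times a large prime, uniformly in
`a` and `B` with few small prime factors. -/

set_option autoImplicit false

namespace Pool.Agent.J6H13.GW

open Finset Filter
open Pool.Agent.Y959.Sv (nu up_sieve)
open Pool.Agent.Y827.HD (Qf Qf_per nu_eq floor_pow')
open Pool.Agent.H318R2.Cr (V Pz)

open scoped Classical

theorem one_sub_inv_nonneg {p : ℕ} (hp : p.Prime) : 0 < 1 - 1 / (p : ℝ) := by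
  have h1 : (1 : ℝ) < p := by exact_mod_cast hp.one_lt
  have h2 : 1 / (p : ℝ) < 1 := by rw [div_lt_one (by linarith)]; exact h1
  linarith

theorem V_pos' (z : ℕ) : 0 < V z := by
  unfold V
  apply Finset.prod_pos
  intro p hp
  unfold Pz at hp
  exact one_sub_inv_nonneg (mem_filter.1 hp).2

/-- the product over the sieving primes -/
theorem prod_two (z0 y' m : ℕ) (θ : ℝ) (hθ : 0 < θ) (hm : θ ≤ ∏ p ∈ m.primeFactors, (1 - 1 / (p : ℝ)))
    (hm0 : m ≠ 0) (hz : z0 ≤ y') :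
    ∏ p ∈ (Ioc z0 y').filter (fun p => p.Prime ∧ ¬ p ∣ m), (1 - (2 : ℝ) / p) ≤ (V y' / (V z0 * θ)) ^ 2 := by
  have hVz := V_pos' z0
  have hVy := V_pos' y'
  have h2 : ∀ p ∈ (Ioc z0 y').filter (fun p => p.Prime ∧ ¬ p ∣ m), (1 - (2 : ℝ) / p) ≤ (1 - 1 / (p : ℝ)) ^ 2 := by
    intro p hp
    have hpp := (mem_filter.1 hp).2.1
    have hp0 : (0 : ℝ) < p := by exact_mod_cast hpp.pos
    have : (1 - 1 / (p : ℝ)) ^ 2 = 1 - 2 / p + (1 / (p : ℝ)) ^ 2 := by ring
    rw [this]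
    have := sq_nonneg (1 / (p : ℝ))
    linarith
  have h3 : ∏ p ∈ (Ioc z0 y').filter (fun p => p.Prime ∧ ¬ p ∣ m), (1 - (2 : ℝ) / p) ≤
      ∏ p ∈ (Ioc z0 y').filter (fun p => p.Prime ∧ ¬ p ∣ m), (1 - 1 / (p : ℝ)) ^ 2 := by
    apply Finset.prod_le_prod
    · intro p hp
      have hpp := (mem_filter.1 hp).2.1
      have hp2 : (2 : ℝ) ≤ p := by exact_mod_cast hpp.two_le
      have : (2 : ℝ) / p ≤ 1 := by rw [div_le_one (by linarith)]; exact hp2
      linarith
    · exact h2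
  refine h3.trans ?_
  rw [Finset.prod_pow]
  apply pow_le_pow_left₀
  · exact Finset.prod_nonneg fun p hp => (one_sub_inv_nonneg (mem_filter.1 hp).2.1).le
  -- `V y' = V z0 * ∏`
  have h4 : V y' = V z0 * ∏ p ∈ (Ioc z0 y').filter Nat.Prime, (1 - 1 / (p : ℝ)) := by
    unfold V
    have h5 : Pz y' = Pz z0 ∪ (Ioc z0 y').filter Nat.Prime := by
      ext p
      unfold Pz
      simp only [mem_filter, mem_Ioc, mem_union]
      constructor
      · rintro ⟨⟨h1, h2⟩, h3⟩
        by_cases h : p ≤ z0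
        · exact Or.inl ⟨⟨h1, h⟩, h3⟩
        · exact Or.inr ⟨⟨by omega, h2⟩, h3⟩
      · rintro (⟨⟨h1, h2⟩, h3⟩ | ⟨⟨h1, h2⟩, h3⟩)
        · exact ⟨⟨h1, by omega⟩, h3⟩
        · exact ⟨⟨by omega, h2⟩, h3⟩
    have h6 : Disjoint (Pz z0) ((Ioc z0 y').filter Nat.Prime) := by
      rw [Finset.disjoint_left]
      intro p hp hp'
      unfold Pz at hp
      rw [mem_filter, mem_Ioc] at hp hp'
      omega
    rw [h5, Finset.prod_union h6]
  have h7 : ∏ p ∈ (Ioc z0 y').filter Nat.Prime, (1 - 1 / (p : ℝ)) =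
      (∏ p ∈ (Ioc z0 y').filter (fun p => p.Prime ∧ ¬ p ∣ m), (1 - 1 / (p : ℝ))) *
      ∏ p ∈ (Ioc z0 y').filter (fun p => p.Prime ∧ p ∣ m), (1 - 1 / (p : ℝ)) := by
    rw [← Finset.prod_filter_mul_prod_filter_not ((Ioc z0 y').filter Nat.Prime) (fun p => ¬ p ∣ m)]
    congr 1
    · rw [Finset.filter_filter]
    · rw [Finset.filter_filter]
      simp only [not_not]
  have h8 : θ ≤ ∏ p ∈ (Ioc z0 y').filter (fun p => p.Prime ∧ p ∣ m), (1 - 1 / (p : ℝ)) := by
    refine hm.trans ?_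
    have hsub : (Ioc z0 y').filter (fun p => p.Prime ∧ p ∣ m) ⊆ m.primeFactors := by
      intro p hp
      rw [mem_filter] at hp
      rw [Nat.mem_primeFactors]
      exact ⟨hp.2.1, hp.2.2, hm0⟩
    rw [← Finset.prod_sdiff hsub]
    have h9 : ∏ p ∈ m.primeFactors \ (Ioc z0 y').filter (fun p => p.Prime ∧ p ∣ m), (1 - 1 / (p : ℝ)) ≤ 1 := by
      apply Finset.prod_le_one
      · intro p hp
        exact (one_sub_inv_nonneg (Nat.prime_of_mem_primeFactors (mem_sdiff.1 hp).1)).le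
      · intro p _
        have : (0 : ℝ) ≤ 1 / (p : ℝ) := by positivity
        linarith
    have h10 : 0 ≤ ∏ p ∈ (Ioc z0 y').filter (fun p => p.Prime ∧ p ∣ m), (1 - 1 / (p : ℝ)) :=
      Finset.prod_nonneg fun p hp => (one_sub_inv_nonneg (mem_filter.1 hp).2.1).le
    calc _ ≤ 1 * ∏ p ∈ (Ioc z0 y').filter (fun p => p.Prime ∧ p ∣ m), (1 - 1 / (p : ℝ)) :=
          mul_le_mul_of_nonneg_right h9 h10
      _ = _ := one_mul _
  rw [le_div_iff₀ (by positivity)]
  have h11 : 0 ≤ ∏ p ∈ (Ioc z0 y').filter (fun p => p.Prime ∧ ¬ p ∣ m), (1 - 1 / (p : ℝ)) :=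
    Finset.prod_nonneg fun p hp => (one_sub_inv_nonneg (mem_filter.1 hp).2.1).le
  rw [h4, h7]
  calc _ = V z0 * ((∏ p ∈ (Ioc z0 y').filter (fun p => p.Prime ∧ ¬ p ∣ m), (1 - 1 / (p : ℝ))) * θ) := by ring
    _ ≤ _ := by gcongr

/-- the primes `p ≤ H` with `a - p = B q`, `q > y` prime -/
noncomputable def prs (a H B y : ℕ) : Finset ℕ :=
  (Icc 1 H).filter (fun p => p.Prime ∧ ∃ q : ℕ, q.Prime ∧ y < q ∧ a = p + B * q)

theorem pair_up : ∃ (C : ℝ) (y₀ : ℕ), 0 < C ∧ ∀ y : ℕ, y₀ ≤ y → ∀ (a H B : ℕ) (θ : ℝ), 1 ≤ B → 0 < θ → θ ≤ 1 →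
    θ ≤ ∏ p ∈ (a * B).primeFactors, (1 - 1 / (p : ℝ)) → y ≤ H → (B : ℝ) ≤ (y : ℝ) ^ (1 / 2 : ℝ) →
    ((prs a H B y).card : ℝ) ≤ C / θ ^ 2 * (H / (B * (Real.log y) ^ 2)) := by
  obtain ⟨K, z0', hK, hup⟩ := up_sieve 2
  obtain ⟨c₁, c₂, hc₁, hc₁₂, hV⟩ := Pool.Agent.H318R2.Cr.cz_bounds
  have hc₂ : 0 < c₂ := hc₁.trans_le hc₁₂
  have hK0 : (1 : ℝ) ≤ K := by exact_mod_cast hK
  obtain ⟨z0, hz0⟩ : ∃ z0, z0 = max z0' 3 := ⟨_, rfl⟩
  set κ : ℝ := 1 / (4 * K) with hκ
  have hκ0 : 0 < κ := by positivity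
  have hκ1 : κ ≤ 1 / 4 := by
    rw [hκ]
    apply one_div_le_one_div_of_le (by norm_num)
    linarith
  have hVz := V_pos' z0
  obtain ⟨G, hG⟩ : ∃ G : ℝ, G = (2 * c₂ / (κ * V z0)) ^ 2 := ⟨_, rfl⟩
  have hG0 : 0 ≤ G := by rw [hG]; positivity
  -- growth
  have e1 : ∀ᶠ y : ℕ in atTop, 4 * (Real.log y) ^ 2 ≤ (y : ℝ) ^ (1 / 8 : ℝ) := by
    have h := (isLittleO_log_rpow_atTop (show (0 : ℝ) < 1 / 16 by norm_num)).bound (show (0 : ℝ) < 1 / 2 by norm_num)
    filter_upwards [tendsto_natCast_atTop_atTop.eventually h, eventually_ge_atTop 1] with y hy hy1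
    have hy1' : (1 : ℝ) ≤ y := by exact_mod_cast hy1
    have h0 : 0 ≤ Real.log y := Real.log_nonneg hy1'
    rw [Real.norm_of_nonneg h0, Real.norm_of_nonneg (by positivity)] at hy
    calc 4 * (Real.log y) ^ 2 ≤ 4 * (1 / 2 * (y : ℝ) ^ (1 / 16 : ℝ)) ^ 2 := by gcongr
      _ = ((y : ℝ) ^ (1 / 16 : ℝ)) ^ 2 := by ring
      _ = (y : ℝ) ^ (1 / 8 : ℝ) := by
        rw [← Real.rpow_natCast, ← Real.rpow_mul (by linarith)]
        norm_num
  obtain ⟨y₀, hy₀⟩ := eventually_atTop.1 ((floor_pow' hκ0 (max 3 z0)).and e1)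
  refine ⟨4 * G + 4, max y₀ 3, by positivity, fun y hy a H B θ hB hθ hθ1 hm hyH hBy => ?_⟩
  obtain ⟨⟨f1, f2⟩, f3⟩ := hy₀ y ((le_max_left _ _).trans hy)
  have hy3 : 3 ≤ y := (le_max_right _ _).trans hy
  have hyr : (3 : ℝ) ≤ y := by exact_mod_cast hy3
  have hly : 1 ≤ Real.log y := by
    rw [Real.le_log_iff_exp_le (by linarith)]
    have := Real.exp_one_lt_d9
    linarith
  have hBr : (1 : ℝ) ≤ B := by exact_mod_cast hB
  have hHr : (y : ℝ) ≤ H := by exact_mod_cast hyH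
  -- empty case
  by_cases ha0 : a = 0
  · have : prs a H B y = ∅ := by
      unfold prs
      apply Finset.filter_eq_empty_iff.2
      rintro p _ ⟨hp, q, hq, _, h⟩
      have := hp.pos
      omega
    rw [this]
    simp only [card_empty, Nat.cast_zero]
    positivity
  have hB0 : B ≠ 0 := by omega
  have hm0 : a * B ≠ 0 := mul_ne_zero ha0 hB0
  set y' : ℕ := ⌊(y : ℝ) ^ κ⌋₊ with hy'
  have hy'3 : 3 ≤ y' := (le_max_left _ _).trans f1
  have hz0y' : z0 ≤ y' := (le_max_right _ _).trans f1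
  have hy'le : (y' : ℝ) ≤ (y : ℝ) ^ κ := Nat.floor_le (by positivity)
  set q0 : ℕ := (a - H) / B with hq0
  set X : ℕ := H / B + 1 with hX
  set F : Finset (ℤ × ℤ) := {((1 : ℤ), (q0 : ℤ)), (-(B : ℤ), (a : ℤ) - B * q0)} with hF
  have hFne : ((1 : ℤ), (q0 : ℤ)) ≠ (-(B : ℤ), (a : ℤ) - B * q0) := by
    intro h
    have := (Prod.mk.inj h).1
    omega
  have hFc : F.card = 2 := by rw [hF]; exact Finset.card_pair hFne
  set P : Finset ℕ := (Ioc z0 y').filter (fun p => p.Prime ∧ ¬ p ∣ a * B) with hP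
  have hnu : ∀ p ∈ P, nu (Qf F) p = 2 := by
    intro p hp
    rw [hP, mem_filter] at hp
    obtain ⟨_, hpp, hpd⟩ := hp
    have hpa : ¬ p ∣ a := fun h => hpd (h.mul_right B)
    have hpB : ¬ p ∣ B := fun h => hpd (h.mul_left a)
    have hpaZ : ¬ (p : ℤ) ∣ (a : ℤ) := by exact_mod_cast hpa
    have hpBZ : ¬ (p : ℤ) ∣ (B : ℤ) := by exact_mod_cast hpB
    rw [← hFc]
    apply nu_eq F hpp
    · intro f hf
      rw [hF, mem_insert, mem_singleton] at hf
      rcases hf with rfl | rfl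
      · simp only
        intro h
        exact hpp.one_lt.ne' (Nat.dvd_one.1 (by exact_mod_cast h))
      · simp only
        rwa [Int.dvd_neg]
    · intro f hf g hg hfg
      rw [hF, mem_insert, mem_singleton] at hf hg
      rcases hf with rfl | rfl <;> rcases hg with rfl | rfl
      · exact absurd rfl hfg
      · simp only
        intro h
        apply hpaZ
        have e : (1 : ℤ) * ((a : ℤ) - B * q0) - -(B : ℤ) * q0 = a := by ring
        rwa [e] at h
      · simp only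
        intro h
        apply hpaZ
        have e : -(B : ℤ) * (q0 : ℤ) - 1 * ((a : ℤ) - B * q0) = -(a : ℤ) := by ring
        rw [e, Int.dvd_neg] at h
        exact h
      · exact absurd rfl hfg
  -- the sieve
  have hHB : (y : ℝ) ^ (1 / 2 : ℝ) ≤ H / B := by
    rw [le_div_iff₀ (by linarith)]
    calc (y : ℝ) ^ (1 / 2 : ℝ) * B ≤ (y : ℝ) ^ (1 / 2 : ℝ) * (y : ℝ) ^ (1 / 2 : ℝ) := by gcongr
      _ = y := by rw [← Real.rpow_add (by linarith)]; norm_num
      _ ≤ H := hHr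
  have hXr : (H : ℝ) / B ≤ X := by
    rw [hX]
    push_cast
    have := Nat.lt_floor_add_one ((H : ℝ) / B)
    rw [Nat.floor_div_eq_div] at this
    exact this.le
  have hy12 : 1 ≤ (y : ℝ) ^ (1 / 2 : ℝ) := Real.one_le_rpow (by linarith) (by norm_num)
  have hX2 : (X : ℝ) ≤ 2 * (H / B) := by
    rw [hX]
    push_cast
    have h1 : ((H / B : ℕ) : ℝ) ≤ H / B := Nat.cast_div_le
    linarith
  have hsv := hup y' X hy'3 (by
    have h1 : ((y' ^ K : ℕ) : ℝ) ≤ X := by
      push_cast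
      calc (y' : ℝ) ^ K ≤ ((y : ℝ) ^ κ) ^ K := by gcongr
        _ = (y : ℝ) ^ (1 / 4 : ℝ) := by
          rw [← Real.rpow_natCast, ← Real.rpow_mul (by linarith)]
          congr 1
          rw [hκ]
          field_simp
        _ ≤ (y : ℝ) ^ (1 / 2 : ℝ) := Real.rpow_le_rpow_of_exponent_le (by linarith) (by norm_num)
        _ ≤ H / B := hHB
        _ ≤ X := hXr
    exact_mod_cast h1) (Qf F) (Qf_per F) P (by
    intro p hp
    have h1 := hnu p hp
    rw [hP, mem_filter, mem_Ioc] at hp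
    refine ⟨hp.2.1, ?_, hp.1.2, by rw [h1]⟩
    have := hp.1.1
    rw [hz0] at this
    exact (le_max_left _ _).trans_lt this)
  have hprod : ∏ p ∈ P, (1 - (nu (Qf F) p : ℝ) / p) = ∏ p ∈ P, (1 - (2 : ℝ) / p) := by
    apply Finset.prod_congr rfl
    intro p hp
    rw [hnu p hp]
    norm_num
  rw [hprod] at hsv
  have hpt := prod_two z0 y' (a * B) θ hθ hm hm0 hz0y'
  -- the injection
  have hcard : ((prs a H B y).card : ℝ) ≤ y' + 1 +
      (((Icc 1 X).filter (fun n : ℕ => ∀ p ∈ P, ¬ Qf F p n)).card : ℝ) := by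
    have h1 : prs a H B y ⊆ (Icc 1 y') ∪ ({a - B * q0} ∪
        ((Icc 1 X).filter (fun n : ℕ => ∀ p ∈ P, ¬ Qf F p n)).image (fun n => a - B * (q0 + n))) := by
      intro p hp
      unfold prs at hp
      rw [mem_filter, mem_Icc] at hp
      obtain ⟨⟨hp1, hpH⟩, hpp, q, hq, hyq, hapq⟩ := hp
      rw [mem_union, mem_union, mem_singleton, mem_image]
      by_cases hpy : p ≤ y'
      · left
        rw [mem_Icc]
        exact ⟨hp1, hpy⟩
      right
      push Not at hpy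
      have hqq0 : q0 ≤ q := by
        rw [hq0]
        apply Nat.div_le_of_le_mul
        omega
      obtain ⟨n, rfl⟩ := Nat.exists_eq_add_of_le hqq0
      by_cases hn : n = 0
      · left
        subst hn
        rw [add_zero] at hapq
        omega
      right
      refine ⟨n, ?_, by omega⟩
      rw [mem_filter, mem_Icc]
      refine ⟨⟨by omega, ?_⟩, ?_⟩
      · -- `n ≤ X`
        rw [hX]
        have h2 : q0 + n ≤ a / B := by
          rw [Nat.le_div_iff_mul_le (by omega)]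
          rw [hapq, mul_comm]
          omega
        have h3 : a / B ≤ (a - H) / B + H / B + 1 := by
          have h4 : a ≤ (a - H) + H := by omega
          have h5 := Nat.div_add_mod (a - H) B
          have h6 := Nat.div_add_mod H B
          have h7 := Nat.mod_lt (a - H) (show 0 < B by omega)
          have h8 := Nat.mod_lt H (show 0 < B by omega)
          have h9 : a < B * ((a - H) / B + H / B + 2) := by
            have h10 : B * ((a - H) / B + H / B + 2) = B * ((a - H) / B) + B * (H / B) + 2 * B := by ring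
            omega
          have := Nat.div_lt_of_lt_mul h9
          omega
        rw [← hq0] at h3
        omega
      · rintro l hl ⟨f, hf, hd⟩
        rw [hP, mem_filter, mem_Ioc] at hl
        obtain ⟨⟨_, hly'⟩, hlp, _⟩ := hl
        rw [hF, mem_insert, mem_singleton] at hf
        have hly : l < y := by
          have h5 : (l : ℝ) < y := by
            calc (l : ℝ) ≤ y' := by exact_mod_cast hly'
              _ ≤ (y : ℝ) ^ κ := hy'le
              _ < (y : ℝ) ^ (1 : ℝ) := Real.rpow_lt_rpow_of_exponent_lt (by linarith) (by linarith)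
              _ = y := Real.rpow_one _
          exact_mod_cast h5
        rcases hf with rfl | rfl
        · simp only at hd
          have h5 : l ∣ q0 + n := by
            have e : (1 : ℤ) * (n : ℤ) + q0 = ((q0 + n : ℕ) : ℤ) := by push_cast; ring
            rw [e] at hd
            exact_mod_cast hd
          have := (Nat.prime_dvd_prime_iff_eq hlp hq).1 h5
          omega
        · simp only at hd
          have h5 : l ∣ p := by
            have e : -(B : ℤ) * (n : ℤ) + (a - B * q0) = (p : ℤ) := by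
              rw [hapq]
              push_cast
              ring
            rw [e] at hd
            exact_mod_cast hd
          have := (Nat.prime_dvd_prime_iff_eq hlp hpp).1 h5
          omega
    have h2 : (prs a H B y).card ≤ y' + (1 +
        ((Icc 1 X).filter (fun n : ℕ => ∀ p ∈ P, ¬ Qf F p n)).card) := by
      refine (card_le_card h1).trans ((card_union_le _ _).trans ?_)
      have h3 : (Icc 1 y').card = y' := by rw [Nat.card_Icc]; omega
      rw [h3]
      apply Nat.add_le_add_left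
      refine (card_union_le _ _).trans ?_
      rw [card_singleton]
      apply Nat.add_le_add_left
      exact card_image_le
    have h4 : ((prs a H B y).card : ℝ) ≤ ((y' + (1 +
        ((Icc 1 X).filter (fun n : ℕ => ∀ p ∈ P, ¬ Qf F p n)).card) : ℕ) : ℝ) := by exact_mod_cast h2
    push_cast at h4 ⊢
    linarith
  -- the final estimate
  have hVy' : V y' ≤ 2 * c₂ / (κ * Real.log y) := by
    have h1 := (hV y' (by omega)).2
    have hl' : κ / 2 * Real.log y ≤ Real.log y' := f2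
    have hpos : 0 < κ / 2 * Real.log y := by positivity
    have hVp := V_pos' y'
    rw [le_div_iff₀ (by positivity)]
    calc V y' * (κ * Real.log y) = 2 * (V y' * (κ / 2 * Real.log y)) := by ring
      _ ≤ 2 * (V y' * Real.log y') := by gcongr
      _ ≤ 2 * c₂ := by linarith
  have hmain : (∏ p ∈ P, (1 - (2 : ℝ) / p)) ≤ G / (θ ^ 2 * (Real.log y) ^ 2) := by
    refine hpt.trans ?_
    have hVp := V_pos' y'
    calc (V y' / (V z0 * θ)) ^ 2 ≤ ((2 * c₂ / (κ * Real.log y)) / (V z0 * θ)) ^ 2 := by gcongr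
      _ = G / (θ ^ 2 * (Real.log y) ^ 2) := by
        rw [hG]
        field_simp
  have hHB0 : (0 : ℝ) < H / B := by
    have : (0 : ℝ) < (y : ℝ) ^ (1 / 2 : ℝ) := by positivity
    linarith
  have hprodnn : 0 ≤ ∏ p ∈ P, (1 - (2 : ℝ) / p) := by
    apply Finset.prod_nonneg
    intro p hp
    rw [hP, mem_filter] at hp
    have hp2 : (2 : ℝ) ≤ p := by exact_mod_cast hp.2.1.two_le
    have : (2 : ℝ) / p ≤ 1 := by rw [div_le_one (by linarith)]; exact hp2
    linarith
  have h2X : 2 * ((X : ℝ) * ∏ p ∈ P, (1 - (2 : ℝ) / p)) ≤ 4 * G / θ ^ 2 * (H / (B * (Real.log y) ^ 2)) := by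
    calc 2 * ((X : ℝ) * ∏ p ∈ P, (1 - (2 : ℝ) / p)) ≤ 2 * ((2 * (H / B)) * (G / (θ ^ 2 * (Real.log y) ^ 2))) := by
          gcongr
      _ = 4 * G / θ ^ 2 * (H / (B * (Real.log y) ^ 2)) := by
          field_simp
          ring
  -- small terms
  set Y8 : ℝ := (y : ℝ) ^ (1 / 8 : ℝ) with hY8
  have hY81 : 1 ≤ Y8 := Real.one_le_rpow (by linarith) (by norm_num)
  have hY84 : Y8 ^ 4 = (y : ℝ) ^ (1 / 2 : ℝ) := by
    rw [hY8, ← Real.rpow_natCast, ← Real.rpow_mul (by linarith)]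
    norm_num
  have hY82 : Y8 ^ 2 = (y : ℝ) ^ (1 / 4 : ℝ) := by
    rw [hY8, ← Real.rpow_natCast, ← Real.rpow_mul (by linarith)]
    norm_num
  have hbase : (H : ℝ) / B ≤ (H / B) * 1 := by linarith
  have hlog2 : 0 < (Real.log y) ^ 2 := by positivity
  have hq : ∀ u : ℝ, u * (4 * (Real.log y) ^ 2) ≤ 2 * (H / B) → u ≤ H / (B * (Real.log y) ^ 2) / 2 * 1 := by
    intro u hu
    rw [mul_one, div_div, le_div_iff₀ (by positivity)]
    rw [mul_div_assoc', le_div_iff₀ (by linarith)] at hu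
    nlinarith
  have hs1 : (y' : ℝ) + 1 ≤ H / (B * (Real.log y) ^ 2) * 2 := by
    have h1 : (y' : ℝ) ≤ Y8 ^ 2 := by
      rw [hY82]
      exact hy'le.trans (Real.rpow_le_rpow_of_exponent_le (by linarith) hκ1)
    have h2 : (y' : ℝ) + 1 ≤ 2 * Y8 ^ 2 := by nlinarith
    have h3 : (y' : ℝ) + 1 ≤ H / (B * (Real.log y) ^ 2) / 2 * 1 * 4 := by
      have h4 := hq (((y' : ℝ) + 1) / 4) (by
        have h5 : ((y' : ℝ) + 1) / 4 * (4 * (Real.log y) ^ 2) ≤ (2 * Y8 ^ 2) / 4 * Y8 := by gcongr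
        have h6 : (2 * Y8 ^ 2) / 4 * Y8 ≤ 2 * Y8 ^ 4 := by
          have : Y8 ^ 3 ≤ Y8 ^ 4 := pow_le_pow_right₀ hY81 (by norm_num)
          nlinarith [pow_pos (lt_of_lt_of_le one_pos hY81) 3]
        rw [hY84] at h6
        linarith)
      linarith
    linarith
  have hs2 : √(X : ℝ) ≤ H / (B * (Real.log y) ^ 2) * 2 := by
    have h1 : √(X : ℝ) ≤ √(2 * (H / B)) := Real.sqrt_le_sqrt hX2
    have h2 : √(2 * ((H : ℝ) / B)) ≤ 2 * √((H : ℝ) / B) := by
      rw [Real.sqrt_mul (by norm_num)]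
      have : √(2 : ℝ) ≤ 2 := by
        rw [Real.sqrt_le_left (by norm_num)]
        norm_num
      gcongr
    have h3 : Y8 ^ 2 ≤ √((H : ℝ) / B) := by
      apply Real.le_sqrt_of_sq_le
      calc (Y8 ^ 2) ^ 2 = Y8 ^ 4 := by ring
        _ = (y : ℝ) ^ (1 / 2 : ℝ) := hY84
        _ ≤ _ := hHB
    have h5 : √((H : ℝ) / B) * √((H : ℝ) / B) = H / B := Real.mul_self_sqrt hHB0.le
    have h6 : √((H : ℝ) / B) * (4 * (Real.log y) ^ 2) ≤ 2 * (H / B) := by
      have h7 : 4 * (Real.log y) ^ 2 ≤ √((H : ℝ) / B) := by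
        have : Y8 ≤ Y8 ^ 2 := by nlinarith
        linarith
      have h8 : √((H : ℝ) / B) * (4 * (Real.log y) ^ 2) ≤ √((H : ℝ) / B) * √((H : ℝ) / B) := by gcongr
      linarith
    have h7 := hq _ h6
    linarith
  have hfin : H / (B * (Real.log y) ^ 2) * 4 ≤ 4 / θ ^ 2 * (H / (B * (Real.log y) ^ 2)) := by
    have h1 : (4 : ℝ) ≤ 4 / θ ^ 2 := by
      rw [le_div_iff₀ (by positivity)]
      have : θ ^ 2 ≤ 1 := pow_le_one₀ hθ.le hθ1
      linarith
    have h2 : 0 ≤ (H : ℝ) / (B * (Real.log y) ^ 2) := by positivity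
    nlinarith
  calc ((prs a H B y).card : ℝ) ≤ y' + 1 +
      (((Icc 1 X).filter (fun n : ℕ => ∀ p ∈ P, ¬ Qf F p n)).card : ℝ) := hcard
    _ ≤ H / (B * (Real.log y) ^ 2) * 2 + (4 * G / θ ^ 2 * (H / (B * (Real.log y) ^ 2)) +
        H / (B * (Real.log y) ^ 2) * 2) := by linarith
    _ ≤ (4 * G + 4) / θ ^ 2 * (H / (B * (Real.log y) ^ 2)) := by
        have e : (4 * G + 4) / θ ^ 2 * (H / (B * (Real.log y) ^ 2)) =
          4 * G / θ ^ 2 * (H / (B * (Real.log y) ^ 2)) + 4 / θ ^ 2 * (H / (B * (Real.log y) ^ 2)) := by ring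
        rw [e]
        linarith

end Pool.Agent.J6H13.GW
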