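import Pool.Agent.H362R2.RQ.Cov
import Pool.Agent.J6H13.GW.Main
import Pool.Agent.J6H13.GW.Surv

set_option autoImplicit false
set_option maxHeartbeats 4000000

/-! The covering of the differences `a - r`, `r` prime; adapted from `Pool.Agent.H362R2.RQ.Cov`. -/

open Finset Filter

namespace Pool.Agent.J6H13.GW

open Pool.Agent.H378R2
open Pool.Agent.H312R2.RG (cov_ev)
open Pool.Agent.H362R2.RQ (cov_ev0)

/-- `log X (log log X)^3 log_4 X / (log_3 X)^2` -/
noncomputable def ffG (X : ℝ) : ℝ := Pool.Agent.H256R2.SC.ff X * Real.log (Real.log X)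

theorem covG (K : ℕ) (Dc θ : ℝ) (hDc : 1 ≤ Dc) (hθ : 0 < θ) (hθ1 : θ ≤ 1) (c₃ : ℝ) (hc₃ : 0 < c₃) :
    ∃ c₂ : ℝ, 0 < c₂ ∧ ∀ z : ℕ, ∃ X0 : ℝ, ∀ X : ℝ, X0 ≤ X → ∀ H a : ℕ, yy X ≤ H → (H : ℝ) ≤ c₂ * ffG X →
    H ≤ a → (a : ℝ) ≤ Dc * H → θ ≤ ∏ p ∈ a.primeFactors, (1 - 1 / (p : ℝ)) →
    ∀ t : Fin K → ℕ, (∀ j, (t j).Prime ∧ yy X < t j ∧ t j ≤ a) → Cov c₃ z X K t (dif a H) := by
  classical
  obtain ⟨C, hC, y₀, hrs⟩ := rsurvG K Dc θ hDc hθ hθ1
  -- constants
  set c₂ : ℝ := min (1 / 8000) (c₃ / (16 * C)) with hc₂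
  have hc₂0 : 0 < c₂ := lt_min (by norm_num) (by positivity)
  have hc₂1 : c₂ ≤ 1 / 8000 := min_le_left _ _
  have hc₂2 : c₂ ≤ c₃ / (16 * C) := min_le_right _ _
  obtain ⟨A₀, hev⟩ := cov_ev (c₂) hc₂0
  refine ⟨c₂, hc₂0, fun z => ?_⟩
  obtain ⟨X9, hX9⟩ := eventually_atTop.1 (cov_ev0 z)
  refine ⟨max X9 (Real.exp (Real.exp (max (max A₀ 4) (Real.log (2000 * ((y₀ : ℝ) + 2)))))), ?_⟩
  intro X hX' H a hyH hHle haH1 haD hθa t ht ps S hps' hS
  obtain ⟨hz2X, hzyy, hzlog⟩ := hX9 X ((le_max_left _ _).trans hX')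
  have hX := (le_max_right _ _).trans hX'
  have hps : ps = 1 ∨ (ps.Prime ∧ 2 < ps) := by
    rcases hps' with h | h
    · exact Or.inl h
    · exact Or.inr ⟨h.1, lt_of_le_of_lt (le_max_left _ _) h.2⟩
  have hX0 : 0 < X := (Real.exp_pos _).trans_le hX
  set T := Real.log X with hT
  have hT' : Real.exp (max (max A₀ 4) (Real.log (2000 * ((y₀ : ℝ) + 2)))) ≤ T := by
    rw [hT, ← Real.log_exp (Real.exp _)]; exact Real.log_le_log (Real.exp_pos _) hX
  have hT0 : 0 < T := (Real.exp_pos _).trans_le hT'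
  set A := Real.log T with hA
  have hA' : max (max A₀ 4) (Real.log (2000 * ((y₀ : ℝ) + 2))) ≤ A := by
    rw [hA, ← Real.log_exp (max _ _)]; exact Real.log_le_log (Real.exp_pos _) hT'
  obtain ⟨a1, a2, a3, a4, a5, a6, a7, a8, a9⟩ := hev A (((le_max_left _ _).trans (le_max_left _ _)).trans hA')
  have hA4 : 4 ≤ A := ((le_max_right _ _).trans (le_max_left _ _)).trans hA'
  have hTe : T = Real.exp A := by rw [hA, Real.exp_log hT0]
  set B := Real.log A with hB
  set D := Real.log B with hD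
  have hff : ffG X = T * A ^ 3 * D / B ^ 2 := by
    unfold ffG Pool.Agent.H256R2.SC.ff
    rw [← hT, ← hA, ← hB, ← hD]
    ring
  have hA0 : 0 < A := by linarith
  have hB0 : 0 < B := by linarith
  have hD0 : 0 < D := by linarith
  have hffp : 0 < ffG X := by rw [hff]; positivity
  -- y
  set y := yy X with hy
  have hyT : (y : ℝ) ≤ T / 1000 := Nat.floor_le (by positivity)
  have hyT2 : T / 2000 ≤ y := by
    have h1 : T / 1000 < (y : ℝ) + 1 := Nat.lt_floor_add_one _
    have h2 : 1 ≤ T / 2000 := by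
      rw [le_div_iff₀ (by norm_num), hTe]; linarith
    linarith [show T / 1000 = T / 2000 + T / 2000 by ring]
  have hy0T : (y₀ : ℝ) + 2 ≤ T / 2000 := by
    have h1 := (le_max_right (max A₀ 4) (Real.log (2000 * ((y₀ : ℝ) + 2)))).trans hA'
    have h2 : 2000 * ((y₀ : ℝ) + 2) ≤ T := by
      rw [hTe, ← Real.log_le_iff_le_exp (by positivity)]
      exact h1
    linarith
  have hyy0 : y₀ ≤ y := by
    have : (y₀ : ℝ) ≤ y := by linarith
    exact_mod_cast this
  have hy0 : (0 : ℝ) < y := by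
    have : (0 : ℝ) ≤ y₀ := Nat.cast_nonneg _
    linarith
  have hly1 : Real.log y ≤ A := by
    rw [hA]; apply Real.log_le_log hy0; linarith
  have hly2 : A / 2 ≤ Real.log y := by
    have h1 : Real.log (T / 2000) ≤ Real.log y := Real.log_le_log (by positivity) hyT2
    rw [Real.log_div hT0.ne' (by norm_num)] at h1
    linarith
  have hly0 : 0 < Real.log y := by linarith
  have hl2y1 : Real.log (Real.log y) ≤ B := Real.log_le_log hly0 hly1
  have hl2y2 : B / 2 ≤ Real.log (Real.log y) := by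
    have h1 : Real.log (A / 2) ≤ Real.log (Real.log y) := Real.log_le_log (by positivity) hly2
    rw [Real.log_div hA0.ne' (by norm_num)] at h1
    linarith
  have hl2y0 : 0 < Real.log (Real.log y) := by linarith
  have hl3y2 : D / 2 ≤ Real.log (Real.log (Real.log y)) := by
    have h1 : Real.log (B / 2) ≤ Real.log (Real.log (Real.log y)) := Real.log_le_log (by positivity) hl2y2
    rw [Real.log_div hB0.ne' (by norm_num)] at h1
    linarith
  -- H
  have hHy : (H : ℝ) ≤ y * (Real.log y) ^ 4 := by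
    refine hHle.trans ?_
    have h1 : T / 2000 * (A / 2) ^ 4 ≤ y * (Real.log y) ^ 4 := by gcongr
    refine le_trans ?_ h1
    rw [hff, mul_div_assoc', div_le_iff₀ (by positivity)]
    have h2 : D ≤ B ^ 2 := by nlinarith
    have h3 : c₂ * (T * A ^ 3 * D) ≤ 1 / 8000 * (T * A ^ 3 * B ^ 2) := by gcongr
    have h4 : 1 / 8000 * (T * A ^ 3 * B ^ 2) * 4 ≤ 1 / 8000 * (T * A ^ 3 * B ^ 2) * A := by gcongr
    linarith [show T / 2000 * (A / 2) ^ 4 * B ^ 2 = 1 / 8000 * (T * A ^ 3 * B ^ 2) * A / 4 by ring]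
  -- S
  have hz2 : 2 ≤ z2 X := by
    have h1 : Real.log (Real.log X) ^ 3 ≤ (z2 X : ℝ) := Nat.le_ceil _
    have h2 : (2 : ℝ) ≤ Real.log (Real.log X) ^ 3 := by
      have h3 : (2 : ℝ) ≤ A := by
        have := Real.log_two_gt_d9
        have h4 : Real.log 2 ≤ Real.log 2000 := Real.log_le_log (by norm_num) (by norm_num)
        have h5 : (1 : ℝ) ≤ Real.log 2000 := by
          rw [Real.le_log_iff_exp_le (by norm_num)]
          have := Real.exp_one_lt_d9
          linarith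
        linarith
      have h4 : Real.log (Real.log X) = A := rfl
      rw [h4]
      nlinarith [sq_nonneg A]
    have : (2 : ℝ) ≤ (z2 X : ℝ) := h2.trans h1
    exact_mod_cast this
  have hS' : ∀ q ∈ S, q.Prime ∧ 2 < q := fun q hq => ⟨(hS.1 q hq).1, by have := (hS.1 q hq).2.1; omega⟩
  have hSsum : ∑ q ∈ S, (1 : ℝ) / q ≤ 12 / (Real.log y) ^ 2 := by
    refine hS.2.trans ?_
    have h4 : Real.log (Real.log X) = A := rfl
    rw [h4]
    have h5 : (Real.log y) ^ 2 ≤ A ^ 2 := by gcongr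
    rw [div_le_div_iff₀ (by positivity) (by positivity)]
    nlinarith [sq_nonneg A]
  obtain ⟨b, hb0, hb1, hb2⟩ := hrs y hyy0 S ps hS' hSsum hps H a hyH hHy haH1 haD hθa t ht
  -- membership in PW
  have hPW : ∀ p, p ∈ PW X S ps ↔ (p.Prime ∧ p ≤ y ∧ p ∉ S ∧ p ≠ ps) := by
    intro p
    unfold PW
    rw [mem_filter, mem_Icc]
    constructor
    · rintro ⟨⟨_, h1⟩, h2, h3, h4⟩; exact ⟨h2, h1, h3, h4⟩
    · rintro ⟨h2, h1, h3, h4⟩; exact ⟨⟨h2.pos, h1⟩, h2, h3, h4⟩
  -- CRT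
  obtain ⟨a0, ha0⟩ := Nat.chineseRemainderOfFinset (fun p => p - b p) (fun p => p) (PW X S ps)
    (fun p hp => ((hPW p).1 hp).1.ne_zero)
    (fun p hp q hq hpq => (Nat.coprime_primes ((hPW p).1 (by simpa using hp)).1
      ((hPW q).1 (by simpa using hq)).1).2 hpq)
  have hkey : ∀ p ∈ PW X S ps, ∀ s : ℕ, p ∣ a0 + s ↔ s ≡ b p [MOD p] := by
    intro p hp s
    obtain ⟨hpp, hpy, hpS, hpps⟩ := (hPW p).1 hp
    have hbp := (hb1 p hpp hpy hpS hpps).1
    have h1 := ha0 p hp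
    have h2 : a0 + b p ≡ 0 [MOD p] := by
      have h3 := h1.add_right (b p)
      have h4 : p - b p + b p = p := by omega
      rw [h4] at h3
      exact h3.trans (by rw [Nat.modEq_zero_iff_dvd])
    constructor
    · intro hd
      have h3 : a0 + s ≡ a0 + b p [MOD p] := ((Nat.modEq_zero_iff_dvd).2 hd).trans h2.symm
      exact Nat.ModEq.add_left_cancel' a0 h3
    · intro hs
      have h3 : a0 + s ≡ a0 + b p [MOD p] := Nat.ModEq.add_left a0 hs
      exact (Nat.modEq_zero_iff_dvd).1 (h3.trans h2)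
  have hcop : ∀ s : ℕ, (a0 + s).Coprime (WW X S ps) ↔ ∀ p ∈ PW X S ps, ¬ s ≡ b p [MOD p] := by
    intro s
    unfold WW
    rw [Nat.coprime_prod_right_iff]
    constructor
    · intro h p hp hs
      have h1 := h p hp
      rw [Nat.coprime_comm, Nat.Prime.coprime_iff_not_dvd ((hPW p).1 hp).1] at h1
      exact h1 ((hkey p hp s).2 hs)
    · intro h p hp
      rw [Nat.coprime_comm, Nat.Prime.coprime_iff_not_dvd ((hPW p).1 hp).1]
      intro hd
      exact h p hp ((hkey p hp s).1 hd)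
  refine ⟨a0, ?_, ?_, ?_⟩
  · intro j
    rw [hcop]
    intro p hp
    obtain ⟨hpp, hpy, hpS, hpps⟩ := (hPW p).1 hp
    exact (hb1 p hpp hpy hpS hpps).2 j
  · have hset : (dif a H).filter
        (fun s => (∀ j, s ≠ t j) ∧ (a0 + s).Coprime (WW X S ps)) ⊆
        (dif a H).filter (fun k => (∀ j, k ≠ t j) ∧ ∀ p : ℕ, p.Prime → p ≤ y → p ∉ S → p ≠ ps →
          ¬ k ≡ b p [MOD p]) := by
      intro s hs
      rw [mem_filter] at hs ⊢
      refine ⟨hs.1, hs.2.1, fun p hpp hpy hpS hpps => ?_⟩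
      exact (hcop s).1 hs.2.2 p ((hPW p).2 ⟨hpp, hpy, hpS, hpps⟩)
    have h1 : (((dif a H).filter
        (fun s => (∀ j, s ≠ t j) ∧ (a0 + s).Coprime (WW X S ps))).card : ℝ) ≤
        C * H * (Real.log (Real.log y)) ^ 2 /
        ((Real.log y) ^ 3 * Real.log (Real.log (Real.log y))) := by
      refine le_trans ?_ hb2
      apply Nat.cast_le.2
      convert card_le_card hset
    refine h1.trans ?_
    calc C * H * (Real.log (Real.log y)) ^ 2 /
        ((Real.log y) ^ 3 * Real.log (Real.log (Real.log y)))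
        ≤ C * (c₂ * ffG X) * B ^ 2 / ((A / 2) ^ 3 * (D / 2)) := by gcongr
      _ = 16 * C * c₂ * T := by
          rw [hff]
          field_simp
          ring
      _ ≤ 16 * C * (c₃ / (16 * C)) * T := by gcongr
      _ = c₃ * T := by field_simp

  · intro p hpp hpz
    have hpPW : p ∈ PW X S ps := by
      rw [hPW]
      refine ⟨hpp, by omega, ?_, ?_⟩
      · intro h
        have := (hS.1 p h).2.1
        omega
      · intro h
        rcases hps' with h1 | h1
        · rw [h1] at h; rw [h] at hpp; exact Nat.not_prime_one hpp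
        · have h2 : z ≤ max 2 z := le_max_right _ _
          have := h1.2
          omega
    refine ⟨?_, Finset.dvd_prod_of_mem (fun p => p) hpPW⟩
    have h1 : b p = 0 := hb0 p (by
      have : (p : ℝ) ≤ z := by exact_mod_cast hpz
      exact this.trans hzlog)
    have h2 := (hkey p hpPW 0).2 (by rw [h1])
    simpa using h2

end Pool.Agent.J6H13.GW
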