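import Mathlib
import Pool.Agent.Y827.RO.NarF
import Pool.Agent.J6H13.AP.Box

/-! The first application of the Maynard-Tao theorem: multiples `W₀ x`, `x` without small prime factors, of a fixed
number such that many `W₀ x - v` are prime (on `Pool.Agent.Y827.RO.lamR0`, starting files). -/

set_option autoImplicit false

namespace Pool.Agent.J6H13.GW

open Finset Filter
open Pool.Agent.Y827.RO Pool.Agent.Y827.GS

theorem lev1 (T : ℕ) (hT : 26 ≤ T) : ∃ K r : ℕ, 1 ≤ K ∧ 1 ≤ r ∧ ∀ W0 : ℕ, 32 ≤ W0 →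
    (∀ p : ℕ, p.Prime → p ≤ (T + 1) * K → p ∣ W0) → ∀ᶠ N : ℕ in atTop, ∀ v : Fin T → Fin K → ℕ,
    Function.Injective (fun x : Fin T × Fin K => v x.1 x.2) →
    (∀ g i, W0.Coprime (v g i) ∧ v g i ≤ N) →
    ∃ (S : Finset (Fin T)) (c : Fin T → Fin K) (x : ℕ), T ≤ 4 * S.card ∧ (N : ℝ) / 16 ≤ x ∧ x ≤ N ∧
      x.primeFactorsList.length ≤ r ∧ ∀ g ∈ S, (W0 * x - v g (c g)).Prime := by
  classical
  have hT1 : 1 ≤ T + 1 := by omega
  obtain ⟨M, hM1, hM2⟩ := ceilM (T + 1) hT1
  obtain ⟨K₀, hK₀, δ, hδ, hmain⟩ := lamR0 (T + 1) M hT1 hM1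
  have hK₀pos : 0 < K₀ := hK₀
  set r : ℕ := ⌈1 / δ⌉₊ + 1 with hr
  have hr1 : 1 ≤ r := by omega
  have hrδ : 1 ≤ r * δ := by
    have h1 : 1 / δ ≤ r := by
      rw [hr]
      push_cast
      linarith [Nat.le_ceil (1 / δ)]
    rwa [div_le_iff₀ hδ] at h1
  refine ⟨K₀, r, hK₀, hr1, fun W0 hW0 hW0p => ?_⟩
  obtain ⟨s₀, c₀, hc₀, hev⟩ := hmain W0
  obtain ⟨N₁, hN₁⟩ := eventually_atTop.1 hev
  filter_upwards [eventually_ge_atTop (max N₁ (max 3 (W0 * K₀)))] with N hN0 v hinj hv
  have hN := hN₁ N ((le_max_left _ _).trans hN0)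
  have hN0' := (le_max_right _ _).trans hN0
  have hN3 : 3 ≤ N := (le_max_left _ _).trans hN0'
  have hNP : W0 * K₀ ≤ N := (le_max_right _ _).trans hN0'
  have hNr : (3 : ℝ) ≤ N := by exact_mod_cast hN3
  have hL1 := Pool.Agent.Y827.RO.log_ge_one hN3
  have hW0R : (32 : ℝ) ≤ W0 := by exact_mod_cast hW0
  set H' : Fin (T + 1) → Fin K₀ → ℤ × ℤ := fun g i =>
    if h : (g : ℕ) < T then ((W0 : ℤ), -(v ⟨g, h⟩ i : ℤ)) else (1, (W0 : ℤ) * (i : ℕ)) with hH'
  have hH1 : ∀ (g : Fin (T + 1)) (i : Fin K₀) (h : (g : ℕ) < T), H' g i = ((W0 : ℤ), -(v ⟨g, h⟩ i : ℤ)) := by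
    intro g i h
    simp only [hH', dif_pos h]
  have hH2 : ∀ (g : Fin (T + 1)) (i : Fin K₀) (h : ¬ (g : ℕ) < T), H' g i = (1, (W0 : ℤ) * (i : ℕ)) := by
    intro g i h
    simp only [hH', dif_neg h]
  have hW1 : (W0 : ℤ) ≠ 1 := by
    intro h
    have : W0 = 1 := by exact_mod_cast h
    omega
  have hW00 : (W0 : ℤ) ≠ 0 := by
    intro h
    have : W0 = 0 := by exact_mod_cast h
    omega
  have hinj' : Function.Injective (fun x : Fin (T + 1) × Fin K₀ => H' x.1 x.2) := by
    rintro ⟨g, i⟩ ⟨g', i'⟩ he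
    simp only at he
    by_cases h : (g : ℕ) < T
    · by_cases h' : (g' : ℕ) < T
      · rw [hH1 g i h, hH1 g' i' h'] at he
        have h1 := neg_injective (Prod.mk.inj he).2
        have h2 : v ⟨g, h⟩ i = v ⟨g', h'⟩ i' := by exact_mod_cast h1
        have h3 := @hinj (⟨g, h⟩, i) (⟨g', h'⟩, i') h2
        have h4 := congrArg (fun z : Fin T × Fin K₀ => (z.1 : ℕ)) h3
        have h5 := congrArg (fun z : Fin T × Fin K₀ => z.2) h3
        simp only at h4 h5
        exact Prod.ext (Fin.ext h4) h5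
      · rw [hH1 g i h, hH2 g' i' h'] at he
        exact absurd (Prod.mk.inj he).1 hW1
    · by_cases h' : (g' : ℕ) < T
      · rw [hH2 g i h, hH1 g' i' h'] at he
        exact absurd (Prod.mk.inj he).1.symm hW1
      · rw [hH2 g i h, hH2 g' i' h'] at he
        have h1 := (Prod.mk.inj he).2
        have h3 : ((i : ℕ) : ℤ) = (i' : ℕ) := mul_left_cancel₀ hW00 h1
        have h4 : (i : ℕ) = i' := by exact_mod_cast h3
        have h5 : (g : ℕ) = g' := by
          have := g.2
          have := g'.2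
          omega
        exact Prod.ext (Fin.ext h5) (Fin.ext h4)
  have hAd : ∀ g i, Adf W0 N (H' g i) := by
    intro g i
    by_cases h : (g : ℕ) < T
    · rw [hH1 g i h]
      obtain ⟨h1, h2⟩ := hv ⟨g, h⟩ i
      have h2R : (v ⟨g, h⟩ i : ℝ) ≤ N := by exact_mod_cast h2
      refine ⟨hW00, ?_, ?_, ?_, ?_⟩
      · simp only
        rw [abs_of_nonneg (by positivity)]
      · simp only [abs_neg]
        rw [abs_of_nonneg (by positivity)]
        exact_mod_cast h2
      · simp only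
        exact (Nat.isCoprime_iff_coprime.2 h1).neg_right
      · intro t ht _
        simp only
        push_cast
        have h3 : (32 : ℝ) * (N / 16) ≤ W0 * t := mul_le_mul hW0R ht (by positivity) (by linarith)
        linarith
    · rw [hH2 g i h]
      refine ⟨one_ne_zero, ?_, ?_, isCoprime_one_left, ?_⟩
      · simp only [abs_one]
        exact_mod_cast (by omega : 1 ≤ W0)
      · simp only
        rw [abs_of_nonneg (by positivity)]
        have h1 : W0 * (i : ℕ) ≤ W0 * K₀ := Nat.mul_le_mul_left _ i.2.le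
        exact_mod_cast h1.trans hNP
      · intro t ht _
        simp only
        push_cast
        have h1 : (0 : ℝ) ≤ (W0 : ℝ) * (i : ℕ) := by positivity
        linarith
  have hloc' : ∀ p : ℕ, p.Prime → p ≤ (T + 1) * K₀ → ∃ b : ℤ, ∀ g i,
      ¬ (p : ℤ) ∣ (H' g i).1 * b + (H' g i).2 := by
    intro p hp hpT
    have hpW := hW0p p hp hpT
    have hpWZ : (p : ℤ) ∣ (W0 : ℤ) := Int.natCast_dvd_natCast.2 hpW
    refine ⟨1, fun g i => ?_⟩
    by_cases h : (g : ℕ) < T
    · rw [hH1 g i h]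
      simp only [mul_one]
      intro hd
      have h1 : (p : ℤ) ∣ -(v ⟨g, h⟩ i : ℤ) := (dvd_add_right hpWZ).1 hd
      have h2 : p ∣ v ⟨g, h⟩ i := by
        rw [dvd_neg] at h1
        exact_mod_cast h1
      have h3 := Nat.dvd_gcd hpW h2
      have h4 := (hv ⟨g, h⟩ i).1
      rw [Nat.Coprime] at h4
      rw [h4] at h3
      exact hp.one_lt.ne' (Nat.dvd_one.1 h3)
    · rw [hH2 g i h]
      simp only [mul_one]
      intro hd
      have h1 : (p : ℤ) ∣ 1 := (dvd_add_left (hpWZ.mul_right _)).1 hd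
      have h2 : p ∣ 1 := by exact_mod_cast h1
      exact hp.one_lt.ne' (Nat.dvd_one.1 h2)
  obtain ⟨s, S', σ, -, -, -, hS', hcard⟩ := hN H' hinj' hAd hloc'
  obtain ⟨n, hn⟩ : (Rs H' δ s S' σ N).Nonempty := by
    rw [← card_pos]
    have hlogN : 0 < Real.log N := by linarith
    have h1 : 0 < c₀ * (N / Real.log N ^ ((T + 1) * K₀ + 1)) := by positivity
    exact_mod_cast h1.trans_le hcard
  unfold Rs at hn
  rw [mem_filter] at hn
  obtain ⟨hn1, hn2, -, hn3, hn4⟩ := hn
  have hn1' := mem_Icc.1 hn1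
  have hrough : ∀ q : ℕ, q.Prime → q ∣ n → N < q ^ r := by
    intro q hq hd
    have h2 := hn3 (Fin.last T) ⟨0, hK₀pos⟩ q hq
    rw [hH2 (Fin.last T) _ (by rw [Fin.val_last]; omega)] at h2
    simp only [one_mul, Nat.cast_zero, mul_zero, add_zero] at h2
    have h3 : ¬ Real.log q ≤ δ * Real.log N := fun h => h2 h (by exact_mod_cast hd)
    push Not at h3
    have hq0 : (0 : ℝ) < q := by exact_mod_cast hq.pos
    have hN0' : (0 : ℝ) < N := by linarith
    have h4 : Real.log N < Real.log ((q : ℝ) ^ r) := by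
      rw [Real.log_pow]
      have h5 : (r : ℝ) * (δ * Real.log N) < r * Real.log q :=
        mul_lt_mul_of_pos_left h3 (by exact_mod_cast hr1)
      have h6 : Real.log N ≤ (r * δ) * Real.log N := le_mul_of_one_le_left (by linarith) hrδ
      linarith
    have h5 := (Real.log_lt_log_iff hN0' (by positivity)).1 h4
    exact_mod_cast h5
  set S : Finset (Fin T) := (univ : Finset (Fin T)).filter (fun u => Fin.castSucc u ∈ S') with hS
  refine ⟨S, fun u => σ (Fin.castSucc u), n, ?_, hn2, hn1'.2,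
    Pool.Agent.J6H13.AP.few_factors hr1 (by omega) hn1'.1 hn1'.2 hrough, ?_⟩
  · have h1 : S' ⊆ insert (Fin.last T) (S.image Fin.castSucc) := by
      intro g hg
      rw [mem_insert]
      by_cases h : g = Fin.last T
      · exact Or.inl h
      · right
        obtain ⟨u, rfl⟩ := Fin.exists_castSucc_eq.2 h
        exact mem_image_of_mem _ (mem_filter.2 ⟨mem_univ _, hg⟩)
    have h2 : S'.card ≤ S.card + 1 := (card_le_card h1).trans ((card_insert_le _ _).trans
      (Nat.add_le_add_right card_image_le _))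
    have h3 : (S'.card : ℝ) ≤ S.card + 1 := by exact_mod_cast h2
    have h4 : ((M + 1 : ℕ) : ℝ) ≤ S'.card := by exact_mod_cast hS'
    have h5 : ((T + 1 : ℕ) : ℝ) ≤ 18 / 5 * (S.card + 1) := by
      refine hM2.trans (mul_le_mul_of_nonneg_left (by linarith) (by norm_num))
    push_cast at h5
    have hTR : (26 : ℝ) ≤ T := by exact_mod_cast hT
    have h6 : (T : ℝ) ≤ 4 * S.card := by linarith
    exact_mod_cast h6
  · intro g hg
    have h1 := hn4 (Fin.castSucc g) (mem_filter.1 hg).2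
    rw [hH1 (Fin.castSucc g) _ g.2] at h1
    simp only at h1
    have hle : v g (σ (Fin.castSucc g)) ≤ W0 * n := by
      have h2 := (hv g (σ (Fin.castSucc g))).2
      have h3 : (N : ℝ) ≤ W0 * n := by
        have : (32 : ℝ) * (N / 16) ≤ W0 * n := mul_le_mul hW0R hn2 (by positivity) (by linarith)
        linarith
      have h4 : N ≤ W0 * n := by exact_mod_cast h3
      omega
    have h5 : ((W0 : ℤ) * n + -(v g (σ (Fin.castSucc g)) : ℤ)).toNat = W0 * n - v g (σ (Fin.castSucc g)) := by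
      have : ((W0 : ℤ) * n + -(v g (σ (Fin.castSucc g)) : ℤ)) = ((W0 * n - v g (σ (Fin.castSucc g)) : ℕ) : ℤ) := by
        rw [Nat.cast_sub hle]
        push_cast
        ring
      rw [this, Int.toNat_natCast]
    rw [← h5]
    exact h1

end Pool.Agent.J6H13.GW
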