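import Pool.Agent.J6H13.RW.Iso
import Pool.Agent.J6H13.GW.Cov
import Pool.Agent.J6H13.GW.Lev

/-! Exact sets of the primes `p` with `m - p` prime; adapted from `Pool.Agent.J6H13.RW.IsoX`. -/

set_option autoImplicit false

open Finset Filter

namespace Pool.Agent.J6H13.GW

open Pool.Agent.H256R2.SC (ff t1 t2 t3 t4)
open Pool.Agent.H312R2.RG.C3 (ff_tendsto ff_lower ff_small ff_slow)
open Pool.Agent.H378R2 (yy)
open Pool.Agent.J6H13.RW (choose2 rich scale_ev)

/-! ### growth -/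

theorem ff_le_ffG : ∀ᶠ X : ℝ in atTop, ff X ≤ ffG X := by
  filter_upwards [t2.eventually_ge_atTop 1, ff_tendsto.eventually_ge_atTop 0] with X h1 h2
  unfold ffG
  exact le_mul_of_one_le_right h2 h1

theorem ffG_tendsto : Tendsto ffG atTop atTop := tendsto_atTop_mono' _ ff_le_ffG ff_tendsto

theorem scaleG (c : ℝ) (hc : 0 < c) : ∀ᶠ X : ℝ in atTop, Real.log X ≤ c * ffG X := by
  filter_upwards [scale_ev c hc, ff_le_ffG] with X h1 h2
  exact h1.trans (mul_le_mul_of_nonneg_left h2 hc.le)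

theorem ffG_sq (C : ℝ) (hC : 0 < C) : ∀ᶠ X : ℝ in atTop, C * ffG X ≤ (Real.log X) ^ 2 := by
  have h := (Real.isLittleO_pow_log_id_atTop (n := 3)).def (show (0 : ℝ) < 1 / C by positivity)
  have h' := t1.eventually h
  filter_upwards [h', t1.eventually_gt_atTop 0, t2.eventually_gt_atTop 0, t3.eventually_ge_atTop 1,
    t4.eventually_ge_atTop 0] with X h1 h2 h3 h4 h5
  simp only [id, Real.norm_eq_abs] at h1
  rw [abs_of_nonneg (by positivity), abs_of_pos h2] at h1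
  unfold ffG ff
  set T := Real.log X
  set A := Real.log T
  set B := Real.log A
  have h6 : Real.log B ≤ B ^ 2 := by
    have := Real.log_le_sub_one_of_pos (show 0 < B by linarith)
    nlinarith
  have h7 : T * A ^ 2 * Real.log B / B ^ 2 ≤ T * A ^ 2 := by
    rw [div_le_iff₀ (by positivity)]
    gcongr
  have h8 : A ^ 3 * C ≤ T := by
    have := mul_le_mul_of_nonneg_right h1 hC.le
    have h9 : 1 / C * T * C = T := by field_simp
    linarith
  calc C * (T * A ^ 2 * Real.log B / B ^ 2 * A) ≤ C * (T * A ^ 2 * A) := by gcongr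
    _ = T * (A ^ 3 * C) := by ring
    _ ≤ T * T := by gcongr
    _ = T ^ 2 := by ring

open Classical in
/-- the number of the even `m ∈ (X, 5 X]` for which the set of the primes `p ≤ z` with `m - p` prime is `S` -/
noncomputable def cntG (z X : ℝ) (S : Finset ℕ) : ℕ :=
  ((range (⌊5 * X⌋₊ + 1)).filter (fun m : ℕ => Even m ∧ X < m ∧
    ∀ p : ℕ, p.Prime → (p : ℝ) ≤ z → ((m - p).Prime ↔ p ∈ S))).card

/-- there are at least `X ^ (7 / 8)` even `m ∈ (X, 5 X]` for which the set of the primes `p ≤ δ F(X)` with `m - p`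
prime is exactly `S` -/
def GX (δ X : ℝ) (S : Finset ℕ) : Prop := X ^ (7 / 8 : ℝ) ≤ (cntG (δ * ffG X) X S : ℝ)

/-- pigeonhole for the good `n` -/
theorem many_of {α : Type*} [Fintype α] [DecidableEq α] [Nonempty α] (P : ℕ → Prop) (f : ℕ → α) (L : ℕ) (Y : ℝ)
    (h : ∀ bad : Finset ℕ, (bad.card : ℝ) ≤ Y → ∃ n ≤ L, n ∉ bad ∧ P n) :
    ∃ (v : α) (A : Finset ℕ), Y / Fintype.card α ≤ (A.card : ℝ) ∧ ∀ n ∈ A, n ≤ L ∧ P n ∧ f n = v := by
  classical
  set 𝒩 := (range (L + 1)).filter P with h𝒩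
  have h1 : Y < (𝒩.card : ℝ) := by
    by_contra hcon
    push Not at hcon
    obtain ⟨n, hn1, hn2, hn3⟩ := h 𝒩 hcon
    exact hn2 (mem_filter.2 ⟨mem_range.2 (by omega), hn3⟩)
  have hα : (0 : ℝ) < Fintype.card α := by exact_mod_cast Fintype.card_pos
  obtain ⟨v, -, hv⟩ := Finset.exists_le_card_fiber_of_nsmul_le_card_of_maps_to
    (s := 𝒩) (t := (univ : Finset α)) (f := f) (b := Y / Fintype.card α) (fun _ _ => mem_univ _) univ_nonempty (by
      rw [nsmul_eq_mul, card_univ, mul_div_cancel₀ _ hα.ne']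
      exact h1.le)
  refine ⟨v, 𝒩.filter (fun n => f n = v), hv, fun n hn => ?_⟩
  rw [mem_filter, h𝒩, mem_filter, mem_range] at hn
  exact ⟨by omega, hn.1.2, hn.2⟩

theorem pow_ev (D : ℝ) (hD : 0 < D) : ∀ᶠ X : ℝ in atTop, X ^ (7 / 8 : ℝ) ≤ X ^ (9 / 10 : ℝ) / D := by
  have h1 := (tendsto_rpow_atTop (show (0 : ℝ) < 1 / 40 by norm_num)).eventually_ge_atTop D
  filter_upwards [h1, eventually_gt_atTop (0 : ℝ)] with X h2 h3
  rw [le_div_iff₀ hD]
  calc X ^ (7 / 8 : ℝ) * D ≤ X ^ (7 / 8 : ℝ) * X ^ (1 / 40 : ℝ) := by gcongr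
    _ = X ^ (9 / 10 : ℝ) := by rw [← Real.rpow_add h3]; norm_num

/-- the product over the prime factors of a multiple of `W0` by a number with few prime factors -/
theorem prod_lower (W0 x r : ℕ) (hW0 : W0 ≠ 0) (hx : x ≠ 0) (hr : x.primeFactorsList.length ≤ r) :
    (1 / 2 : ℝ) ^ r * ∏ p ∈ W0.primeFactors, (1 - 1 / (p : ℝ)) ≤
      ∏ p ∈ (W0 * x).primeFactors, (1 - 1 / (p : ℝ)) := by
  classical
  have hpos : ∀ p : ℕ, p.Prime → (1 / 2 : ℝ) ≤ 1 - 1 / (p : ℝ) ∧ 1 - 1 / (p : ℝ) ≤ 1 := by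
    intro p hp
    have h2 : (2 : ℝ) ≤ p := by exact_mod_cast hp.two_le
    have : 1 / (p : ℝ) ≤ 1 / 2 := one_div_le_one_div_of_le (by norm_num) h2
    have h3 : (0 : ℝ) ≤ 1 / (p : ℝ) := by positivity
    constructor <;> linarith
  rw [Nat.primeFactors_mul hW0 hx, ← union_sdiff_self_eq_union, prod_union disjoint_sdiff, mul_comm]
  apply mul_le_mul_of_nonneg_left
  · have h1 : (x.primeFactors \ W0.primeFactors).card ≤ r := by
      refine (card_le_card sdiff_subset).trans ?_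
      rw [Nat.primeFactors]
      exact (List.toFinset_card_le _).trans hr
    have h2 : ∏ _p ∈ x.primeFactors \ W0.primeFactors, (1 / 2 : ℝ) ≤
        ∏ p ∈ x.primeFactors \ W0.primeFactors, (1 - 1 / (p : ℝ)) := by
      apply Finset.prod_le_prod
      · intro p _; norm_num
      · intro p hp
        exact (hpos p (Nat.prime_of_mem_primeFactors (Finset.mem_sdiff.1 hp).1)).1
    rw [prod_const] at h2
    exact (pow_le_pow_of_le_one (by norm_num) (by norm_num) h1).trans h2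
  · exact Finset.prod_nonneg fun p hp => by
      have := (hpos p (Nat.prime_of_mem_primeFactors hp)).1
      linarith

theorem box_G (h : StGW) : ∃ C : ℕ, 1 ≤ C ∧ ∀ k : ℕ, 1 ≤ k → ∃ M K : ℕ, 1 ≤ M ∧ M ≤ C * k ^ 2 ∧ 1 ≤ K ∧
    ∃ N₀ : ℕ, ∃ δ : ℝ, 0 < δ ∧ ∃ X₀ : ℝ, ∀ X : ℝ, X₀ ≤ X →
      ∀ hh : ℕ → ℕ, (∀ x < M * K, (hh x).Prime ∧ N₀ < hh x ∧ (hh x : ℝ) ≤ δ * ffG X) →
      (∀ x < M * K, ∀ y < M * K, hh x = hh y → x = y) →
      ∃ I : Finset ℕ, (∀ x ∈ I, x < M * K) ∧ (k ≤ I.card ∧ I.card ≤ C * k) ∧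
        (∀ x ∈ I, ∀ y ∈ I, x / K = y / K → x = y) ∧ GX δ X (I.image hh) := by
  classical
  obtain ⟨C₁, c₀, hC₁, hc₀, hmain⟩ := h
  obtain ⟨D, hD1, hpar⟩ := choose2 hC₁ hc₀
  refine ⟨8 * D, by omega, ?_⟩
  intro k hk
  have hk1 : (1 : ℝ) ≤ k := by exact_mod_cast hk
  obtain ⟨B, b, hB1, hbB, hBk, hBD, hb1, hb2⟩ := hpar k hk
  have hB1' : (1 : ℝ) ≤ B := by exact_mod_cast hB1
  have hB0 : (0 : ℝ) < B := by linarith
  obtain ⟨c, hc, hz⟩ := hmain B hB1
  set g₀ := 2 ^ (B - b) with hg₀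
  have hg₀1 : 1 ≤ g₀ := Nat.one_le_two_pow
  have hmg : 2 ^ b * g₀ = 2 ^ B := by rw [hg₀, ← pow_add, Nat.add_sub_cancel' hbB]
  set M := 8 * 2 ^ b with hM
  set G := 8 * g₀ with hG
  have hG0 : 0 < G := by omega
  have hM1 : 1 ≤ M := by
    have : 1 ≤ 2 ^ b := Nat.one_le_two_pow
    omega
  have hMG26 : 26 ≤ M * G := by
    have h1 : 1 ≤ 2 ^ b := Nat.one_le_two_pow
    have h2 : 8 ≤ M := by omega
    have h3 : 8 ≤ G := by omega
    have := Nat.mul_le_mul h2 h3
    omega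
  obtain ⟨K2, r, hK2, hr1, hlev⟩ := lev1 (M * G) hMG26
  have hK20 : 0 < K2 := hK2
  obtain ⟨N₀, hN₀⟩ : ∃ N₀ : ℕ, N₀ = (M * G + 1) * K2 + 32 := ⟨_, rfl⟩
  obtain ⟨W0, hW0⟩ : ∃ W0 : ℕ, W0 = N₀.factorial := ⟨_, rfl⟩
  have hW032 : 32 ≤ W0 := by
    rw [hW0]
    exact (by omega : 32 ≤ N₀).trans (Nat.self_le_factorial _)
  have hW0pos : 0 < W0 := by omega
  have hW0R : (32 : ℝ) ≤ W0 := by exact_mod_cast hW032
  have hW0p : ∀ p : ℕ, p.Prime → p ≤ (M * G + 1) * K2 → p ∣ W0 := by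
    intro p hp hple
    rw [hW0]
    exact hp.dvd_factorial.2 (by omega)
  have hW0even : 2 ∣ W0 := by
    rw [hW0]
    exact Nat.prime_two.dvd_factorial.2 (by omega)
  obtain ⟨θ, hθ⟩ : ∃ θ : ℝ, θ = (1 / 2 : ℝ) ^ r * ∏ p ∈ W0.primeFactors, (1 - 1 / (p : ℝ)) := ⟨_, rfl⟩
  have hfac : ∀ p ∈ W0.primeFactors, 0 < 1 - 1 / (p : ℝ) ∧ 1 - 1 / (p : ℝ) ≤ 1 := by
    intro p hp
    have h2 : (2 : ℝ) ≤ p := by exact_mod_cast (Nat.prime_of_mem_primeFactors hp).two_le
    have : 1 / (p : ℝ) ≤ 1 / 2 := one_div_le_one_div_of_le (by norm_num) h2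
    have h3 : (0 : ℝ) ≤ 1 / (p : ℝ) := by positivity
    constructor <;> linarith
  have hθ0 : 0 < θ := by
    rw [hθ]
    have : 0 < ∏ p ∈ W0.primeFactors, (1 - 1 / (p : ℝ)) := Finset.prod_pos fun p hp => (hfac p hp).1
    positivity
  have hθ1 : θ ≤ 1 := by
    rw [hθ]
    have h1 : ∏ p ∈ W0.primeFactors, (1 - 1 / (p : ℝ)) ≤ 1 :=
      Finset.prod_le_one (fun p hp => (hfac p hp).1.le) (fun p hp => (hfac p hp).2)
    have h2 : (1 / 2 : ℝ) ^ r ≤ 1 := pow_le_one₀ (by norm_num) (by norm_num)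
    have h3 : 0 ≤ ∏ p ∈ W0.primeFactors, (1 - 1 / (p : ℝ)) :=
      Finset.prod_nonneg fun p hp => (hfac p hp).1.le
    calc _ ≤ 1 * 1 := mul_le_mul h2 h1 h3 (by norm_num)
      _ = 1 := one_mul 1
  obtain ⟨c₂, hc₂, hcov⟩ := covG (2 ^ B) W0 θ (by linarith) hθ0 hθ1 c hc
  refine ⟨M, K2 * G, hM1, ?_, Nat.mul_pos hK2 hG0, N₀, c₂ / 2, by positivity, ?_⟩
  · rw [hM]
    calc 8 * 2 ^ b ≤ 8 * (D * k ^ 2) := Nat.mul_le_mul_left _ hb2
      _ = 8 * D * k ^ 2 := by ring
  obtain ⟨N₁, hN₁⟩ := eventually_atTop.1 (hlev W0 hW032 hW0p)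
  obtain ⟨X1, hX1⟩ := hz 2
  obtain ⟨X3, hX3⟩ := hcov 2
  obtain ⟨X2, hX2⟩ := eventually_atTop.1 ((scaleG (c₂ / 4) (by positivity)).and
    ((ffG_sq (W0 * (c₂ + 1)) (by positivity)).and ((ffG_tendsto.eventually_ge_atTop (4 * (N₁ + 2) / c₂)).and
      ((t1.eventually_ge_atTop 1).and (ev_sqle.and ((eventually_ge_atTop (1 : ℝ)).and
        (pow_ev (Fintype.card (Finset (Fin (2 ^ B)))) (by exact_mod_cast Fintype.card_pos))))))))
  refine ⟨max X1 (max X2 X3), fun X hXX hh hhp hinj => ?_⟩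
  have hX1' : X1 ≤ X := (le_max_left _ _).trans hXX
  have hX2' : X2 ≤ X := ((le_max_left _ _).trans (le_max_right _ _)).trans hXX
  have hX3' : X3 ≤ X := ((le_max_right _ _).trans (le_max_right _ _)).trans hXX
  obtain ⟨e1, e2, e3, e4, e5, e6, e8⟩ := hX2 X hX2'
  have hcff : 4 * ((N₁ : ℝ) + 2) ≤ c₂ * ffG X := by
    rw [div_le_iff₀ hc₂] at e3
    linarith
  have hN₁0 : (0 : ℝ) ≤ N₁ := Nat.cast_nonneg _
  have hffG0 : 0 ≤ ffG X := by
    by_contra hneg
    push Not at hneg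
    have : c₂ * ffG X ≤ 0 := mul_nonpos_of_nonneg_of_nonpos hc₂.le hneg.le
    linarith
  -- the index of an element
  set idx : Fin (M * G) → Fin K2 → ℕ := fun g i => (g : ℕ) * K2 + i with hidx
  have hidxlt : ∀ g i, idx g i < M * (K2 * G) := by
    intro g i
    have h1 : (g : ℕ) + 1 ≤ M * G := g.2
    have h2 : ((g : ℕ) + 1) * K2 ≤ (M * G) * K2 := Nat.mul_le_mul_right _ h1
    have h3 : (i : ℕ) < K2 := i.2
    have h4 : ((g : ℕ) + 1) * K2 = (g : ℕ) * K2 + K2 := by ring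
    have h5 : M * (K2 * G) = M * G * K2 := by ring
    simp only [hidx]
    omega
  have hidxdiv : ∀ g i, idx g i / K2 = g := by
    intro g i
    simp only [hidx]
    rw [Nat.add_comm, Nat.add_mul_div_right _ _ hK20, Nat.div_eq_of_lt i.2, zero_add]
  have hidxinj : ∀ g i g' i', idx g i = idx g' i' → g = g' ∧ i = i' := by
    intro g i g' i' he
    have h1 : (g : ℕ) = g' := by rw [← hidxdiv g i, he, hidxdiv]
    refine ⟨Fin.ext h1, Fin.ext ?_⟩
    simp only [hidx] at he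
    rw [h1] at he
    omega
  -- the scale of the first application
  set N : ℕ := ⌊c₂ * ffG X⌋₊ with hN
  have hNhi : (N : ℝ) ≤ c₂ * ffG X := Nat.floor_le (by positivity)
  have hNlo : c₂ * ffG X < (N : ℝ) + 1 := Nat.lt_floor_add_one _
  have hNhalf : c₂ / 2 * ffG X ≤ N := by linarith
  have hNN1 : 4 * (N₁ : ℝ) + 7 ≤ N := by linarith
  have hNN1' : 4 * N₁ + 7 ≤ N := by exact_mod_cast hNN1
  have hNr : (1 : ℝ) ≤ N := by linarith
  obtain ⟨S, cf, x, hSquart, hxlo, hxhi, hxr, hxp⟩ := hN₁ N (by omega) (fun g i => hh (idx g i))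
    (by
      intro x y hxy
      simp only at hxy
      obtain ⟨h3, h4⟩ := hidxinj _ _ _ _ (hinj _ (hidxlt _ _) _ (hidxlt _ _) hxy)
      exact Prod.ext h3 h4)
    (by
      intro g i
      obtain ⟨h1, h2, h3⟩ := hhp _ (hidxlt g i)
      constructor
      · rw [hW0, Nat.coprime_comm, h1.coprime_iff_not_dvd, h1.dvd_factorial]
        omega
      · have : (hh (idx g i) : ℝ) ≤ N := h3.trans hNhalf
        exact_mod_cast this)
  obtain ⟨U, hUS, hUc, hUd⟩ := rich M (2 ^ b) G g₀ hM hG hg₀1 S hSquart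
  rw [hmg] at hUc
  set u := U.orderEmbOfFin hUc with hu
  have huU : ∀ j, u j ∈ U := fun j => Finset.orderEmbOfFin_mem U hUc j
  set pos : Fin (2 ^ B) → ℕ := fun j => idx (u j) (cf (u j)) with hpos
  have hposlt : ∀ j, pos j < M * (K2 * G) := fun j => hidxlt _ _
  have hposinj : ∀ i j, pos i = pos j → i = j := fun i j hij =>
    u.injective (hidxinj _ _ _ _ hij).1
  have hposdiv : ∀ j, pos j / (K2 * G) = (u j : ℕ) / G := by
    intro j
    rw [← Nat.div_div_eq_div_mul, hidxdiv]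
  -- the weights
  obtain ⟨lam, hlam⟩ : ∃ lam : ℝ, lam = 2 * C₁ * B + 1 := ⟨_, rfl⟩
  have hlam0 : 0 < lam := by rw [hlam]; positivity
  obtain ⟨η, hη⟩ : ∃ η : ℝ, η = 1 / (2 * C₁) / B := ⟨_, rfl⟩
  have hη0 : 0 < η := by rw [hη]; positivity
  have hηB : 2 * C₁ * B * η = 1 := by rw [hη]; field_simp
  set w : Fin (2 ^ B) → Fin (2 ^ B) → ℝ := fun i j =>
    (if (u i : ℕ) / G = (u j : ℕ) / G then lam else 0) + η with hw
  have hw0 : ∀ i j, 0 ≤ w i j := by
    intro i j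
    simp only [hw]
    split_ifs
    · linarith
    · linarith
  have hwsum : C₁ * B * ∑ i, ∑ j, w i j ≤ (2 ^ B) ^ 2 := by
    have h1 : ∀ i, ∑ j, w i j ≤ lam * g₀ + η * 2 ^ B := by
      intro i
      simp only [hw]
      rw [sum_add_distrib, ← sum_filter, sum_const, sum_const, card_univ, Fintype.card_fin, nsmul_eq_mul,
        nsmul_eq_mul]
      have h2 : ((univ : Finset (Fin (2 ^ B))).filter (fun j => (u i : ℕ) / G = (u j : ℕ) / G)).card ≤ g₀ := by
        refine le_trans ?_ (hUd ((u i : ℕ) / G))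
        apply card_le_card_of_injOn (fun j => u j)
        · intro j hj
          rw [mem_coe, mem_filter] at hj
          rw [mem_coe, mem_filter]
          exact ⟨huU j, hj.2.symm⟩
        · intro j _ j' _ hjj
          exact u.injective hjj
      have h3 : (((univ : Finset (Fin (2 ^ B))).filter (fun j => (u i : ℕ) / G = (u j : ℕ) / G)).card : ℝ) ≤
        g₀ := by exact_mod_cast h2
      have h4 := mul_le_mul_of_nonneg_right h3 hlam0.le
      push_cast
      linarith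
    have h2 : ∑ i, ∑ j, w i j ≤ 2 ^ B * (lam * g₀ + η * 2 ^ B) := by
      refine (sum_le_sum fun i _ => h1 i).trans (le_of_eq ?_)
      rw [sum_const, card_univ, Fintype.card_fin, nsmul_eq_mul]
      push_cast
      ring
    have h3 : C₁ * B * ∑ i, ∑ j, w i j ≤ C₁ * B * (2 ^ B * (lam * g₀ + η * 2 ^ B)) :=
      mul_le_mul_of_nonneg_left h2 (by positivity)
    refine h3.trans ?_
    have h4 : (2 : ℝ) ^ b * g₀ = 2 ^ B := by exact_mod_cast hmg
    have h5 : 2 * (C₁ * B * lam) * g₀ ≤ 2 ^ B := by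
      rw [← h4]
      apply mul_le_mul_of_nonneg_right _ (Nat.cast_nonneg _)
      rw [hlam]
      linarith
    have h6 : (0 : ℝ) < 2 ^ B := by positivity
    have h7 : C₁ * B * (2 ^ B * (lam * g₀ + η * 2 ^ B)) =
        (2 * (C₁ * B * lam) * g₀) * 2 ^ B / 2 + (2 * C₁ * B * η) * (2 ^ B) ^ 2 / 2 := by ring
    rw [h7, hηB]
    have h8 := mul_le_mul_of_nonneg_right h5 h6.le
    linarith
  obtain ⟨a, ha⟩ : ∃ a : ℕ, a = W0 * x := ⟨_, rfl⟩
  have haR : (a : ℝ) = W0 * x := by rw [ha]; push_cast; rfl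
  have ha2N : 2 * (N : ℝ) ≤ a := by
    have : (32 : ℝ) * (N / 16) ≤ W0 * x := mul_le_mul hW0R hxlo (by positivity) (by linarith)
    linarith
  have haW : (a : ℝ) ≤ W0 * N := by
    rw [haR]
    have : (x : ℝ) ≤ N := by exact_mod_cast hxhi
    exact mul_le_mul_of_nonneg_left this (by linarith)
  have hx0 : x ≠ 0 := by
    rintro rfl
    push_cast at hxlo
    linarith
  have haL : (a : ℝ) ≤ (Real.log X) ^ 2 := by
    have h1 : (W0 : ℝ) * N ≤ W0 * (c₂ * ffG X) := mul_le_mul_of_nonneg_left hNhi (by linarith)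
    have h2 : (W0 : ℝ) * (c₂ * ffG X) ≤ W0 * (c₂ + 1) * ffG X := by
      have h3 : 0 ≤ (W0 : ℝ) * ffG X := by positivity
      linarith
    linarith
  have haN : N ≤ a := by
    have : (N : ℝ) ≤ a := by linarith
    exact_mod_cast this
  have haev : 2 ∣ a := by
    rw [ha]
    exact hW0even.mul_right _
  -- the shifts
  have hhN : ∀ j, hh (pos j) ≤ N := by
    intro j
    have : (hh (pos j) : ℝ) ≤ N := (hhp _ (hposlt j)).2.2.trans hNhalf
    exact_mod_cast this
  set t : Fin (2 ^ B) → ℕ := fun j => a - hh (pos j) with ht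
  have htadd : ∀ j, t j + hh (pos j) = a := by
    intro j
    simp only [ht]
    have := hhN j
    omega
  have htp : ∀ j, (t j).Prime := by
    intro j
    have a2 := hxp (u j) (hUS (huU j))
    simp only [ht, ha, hpos]
    exact a2
  have htinj : Function.Injective t := by
    intro i j hij
    have h1 := htadd i
    have h2 := htadd j
    have h3 : hh (pos i) = hh (pos j) := by
      rw [hij] at h1
      omega
    exact hposinj i j (hinj _ (hposlt i) _ (hposlt j) h3)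
  have htle : ∀ j, t j ≤ a := fun j => by simp only [ht]; omega
  have htleR : ∀ j, (t j : ℝ) ≤ a := fun j => by exact_mod_cast htle j
  have htN : ∀ j, N ≤ t j := by
    intro j
    have h1 := htadd j
    have h2 := hhN j
    have h3 : 2 * N ≤ a := by exact_mod_cast ha2N
    omega
  have hyN : (yy X : ℝ) < N := by
    have h1 : (yy X : ℝ) ≤ Real.log X / 1000 := Nat.floor_le (by positivity)
    have h2 : c₂ / 4 * ffG X ≤ N := by
      have : 0 ≤ c₂ * ffG X := by positivity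
      linarith
    linarith
  have hyN' : yy X < N := by exact_mod_cast hyN
  have hCov := hX3 X hX3' N a hyN'.le hNhi haN haW (by
    rw [ha, hθ]
    exact prod_lower W0 x r hW0pos.ne' hx0 hxr) t (fun j => ⟨htp j, hyN'.trans_le (htN j), htle j⟩)
  have hXpos : 0 < X := by linarith
  obtain ⟨J, 𝒜, h𝒜, h𝒜p⟩ := many_of (fun n : ℕ => X < n ∧ (n : ℝ) ≤ 3 * X ∧
      c₀ * B ≤ ((univ.filter (fun j => (n + t j).Prime)).card : ℝ) -
        ∑ i ∈ univ.filter (fun j => (n + t j).Prime), ∑ j ∈ univ.filter (fun j => (n + t j).Prime ∧ i ≠ j), w i j ∧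
      (∀ s ∈ dif a N, (n + s).Prime → ∃ j, s = t j) ∧ 2 ∣ n)
    (fun n : ℕ => (univ : Finset (Fin (2 ^ B))).filter (fun j => (n + t j).Prime)) ⌊3 * X⌋₊ (X ^ (9 / 10 : ℝ)) (by
      intro bad hbad
      obtain ⟨n, hn1, hn2, hn3, hcount, hs, hzn⟩ := hX1 X hX1' t htinj
        (fun j => ⟨(htp j).ne_zero, (htleR j).trans haL⟩) (dif a N) (by
          intro s hs
          unfold dif at hs
          obtain ⟨r', hr', rfl⟩ := mem_image.1 hs
          have : a - r' ≤ a := Nat.sub_le _ _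
          exact (by exact_mod_cast this : ((a - r' : ℕ) : ℝ) ≤ a).trans haL) hCov w hw0 hwsum bad hbad
      exact ⟨n, Nat.le_floor hn2, hn3, hn1, hn2, hcount, hs, hzn 2 Nat.prime_two le_rfl⟩)
  have h𝒜2 : X ^ (7 / 8 : ℝ) ≤ (𝒜.card : ℝ) := e8.trans h𝒜
  obtain ⟨n, hn𝒜⟩ : 𝒜.Nonempty := by
    rw [← card_pos]
    have : (0 : ℝ) < 𝒜.card := (Real.rpow_pos_of_pos hXpos _).trans_le h𝒜2
    exact_mod_cast this
  obtain ⟨-, ⟨hn1, hn2, hcount, -, -⟩, hJn⟩ := h𝒜p n hn𝒜
  set J0 : Finset (Fin (2 ^ B)) := univ.filter (fun j => (n + t j).Prime) with hJ0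
  -- the number of the primes
  have hfilt : ∀ i, univ.filter (fun j => (n + t j).Prime ∧ i ≠ j) = J0.erase i := by
    intro i
    ext j
    rw [hJ0, mem_erase, mem_filter, mem_filter]
    constructor
    · rintro ⟨_, h1, h2⟩
      exact ⟨fun h => h2 h.symm, mem_univ _, h1⟩
    · rintro ⟨h1, _, h2⟩
      exact ⟨mem_univ _, h2, fun h => h1 h.symm⟩
  rw [sum_congr rfl (fun i _ => by rw [hfilt i])] at hcount
  have hcB : 0 < c₀ * B := by positivity
  have hJk : k ≤ J0.card := by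
    have h1 : 0 ≤ ∑ i ∈ J0, ∑ j ∈ J0.erase i, w i j :=
      sum_nonneg fun i _ => sum_nonneg fun j _ => hw0 i j
    have h2 : (k : ℝ) ≤ J0.card := by linarith
    exact_mod_cast h2
  have hJup : (J0.card : ℝ) < 2 * C₁ * B + 1 := by
    have h1 : ∑ i ∈ J0, ∑ _j ∈ J0.erase i, η ≤ ∑ i ∈ J0, ∑ j ∈ J0.erase i, w i j := by
      refine sum_le_sum fun i _ => sum_le_sum fun j _ => ?_
      simp only [hw]
      split_ifs
      · linarith
      · linarith
    have h2 : ∑ i ∈ J0, ∑ _j ∈ J0.erase i, η = J0.card * (((J0.card : ℝ) - 1) * η) := by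
      have h3 : ∀ i ∈ J0, ∑ _j ∈ J0.erase i, η = ((J0.card : ℝ) - 1) * η := by
        intro i hi
        rw [sum_const, nsmul_eq_mul, card_erase_of_mem hi, Nat.cast_sub (card_pos.2 ⟨i, hi⟩)]
        push_cast
        ring
      rw [sum_congr rfl h3, sum_const, nsmul_eq_mul]
    have h4 : (J0.card : ℝ) * (((J0.card : ℝ) - 1) * η) < J0.card * 1 := by
      rw [h2] at h1
      linarith
    have h5 : (0 : ℝ) < J0.card := by
      have : (k : ℝ) ≤ J0.card := by exact_mod_cast hJk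
      linarith
    have h6 : ((J0.card : ℝ) - 1) * η < 1 := lt_of_mul_lt_mul_left h4 h5.le
    have h7 : ((J0.card : ℝ) - 1) * η < 2 * C₁ * B * η := by rw [hηB]; exact h6
    have h8 := lt_of_mul_lt_mul_right h7 hη0.le
    linarith
  have hJD : J0.card ≤ 8 * D * k := by
    have h1 : (J0.card : ℝ) ≤ D * k := by linarith
    have h2 : J0.card ≤ D * k := by exact_mod_cast h1
    have h3 : D * k ≤ 8 * (D * k) := by omega
    calc J0.card ≤ 8 * (D * k) := h2.trans h3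
      _ = _ := by ring
  have hJcl : ∀ i ∈ J0, ∀ j ∈ J0, (u i : ℕ) / G = (u j : ℕ) / G → i = j := by
    intro i hi j hj hij
    by_contra hne
    have h1 : lam ≤ ∑ i ∈ J0, ∑ j ∈ J0.erase i, w i j := by
      have h2 : w i j ≤ ∑ j ∈ J0.erase i, w i j :=
        single_le_sum (f := fun j => w i j) (fun j _ => hw0 i j) (mem_erase.2 ⟨fun h => hne h.symm, hj⟩)
      have h3 : ∑ j ∈ J0.erase i, w i j ≤ ∑ i ∈ J0, ∑ j ∈ J0.erase i, w i j :=
        single_le_sum (f := fun i => ∑ j ∈ J0.erase i, w i j)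
          (fun i _ => sum_nonneg fun j _ => hw0 i j) hi
      have h4 : lam ≤ w i j := by
        simp only [hw, hij, if_true]
        linarith
      linarith
    rw [← hlam] at hJup
    linarith
  set I : Finset ℕ := J0.image pos with hI
  have hIc : I.card = J0.card := card_image_of_injective _ (fun i j hij => hposinj i j hij)
  have haX : (a : ℝ) ≤ X := haL.trans e5
  refine ⟨I, ?_, by rw [hIc]; exact ⟨hJk, hJD⟩, ?_, h𝒜2.trans ?_⟩
  · intro x hx
    obtain ⟨j, -, rfl⟩ := mem_image.1 hx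
    exact hposlt j
  · intro x hx y hy hxy
    obtain ⟨i, hi, rfl⟩ := mem_image.1 hx
    obtain ⟨j, hj, rfl⟩ := mem_image.1 hy
    rw [hposdiv, hposdiv] at hxy
    rw [hJcl i hi j hj hxy]
  · rw [← card_image_of_injective 𝒜 (add_left_injective a)]
    unfold cntG
    apply Nat.cast_le.2
    apply card_le_card
    intro m hm
    obtain ⟨n', hn', rfl⟩ := mem_image.1 hm
    obtain ⟨-, ⟨hn1', hn2', -, hs, hneven⟩, hJn'⟩ := h𝒜p n' hn'
    have hJ0' : J0 = (univ : Finset (Fin (2 ^ B))).filter (fun j => (n' + t j).Prime) := by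
      rw [hJ0]
      exact hJn.trans hJn'.symm
    simp only [mem_filter, mem_range]
    refine ⟨?_, even_iff_two_dvd.2 (hneven.add haev), ?_, ?_⟩
    · rw [Nat.lt_succ_iff]
      apply Nat.le_floor
      push_cast
      linarith
    · push_cast
      have : (0 : ℝ) ≤ a := Nat.cast_nonneg _
      linarith
    · intro p hp hple
      have hpN : p ≤ N := by
        have : (p : ℝ) ≤ N := hple.trans hNhalf
        exact_mod_cast this
      have e7 : n' + a - p = n' + (a - p) := by omega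
      rw [e7]
      constructor
      · intro hpr
        obtain ⟨j, hj⟩ := hs (a - p) (by
          unfold dif
          exact mem_image.2 ⟨p, mem_filter.2 ⟨mem_Icc.2 ⟨hp.pos, hpN⟩, hp⟩, rfl⟩) hpr
        have h1 := htadd j
        have h2 : p = hh (pos j) := by omega
        rw [h2]
        exact mem_image.2 ⟨pos j, mem_image.2 ⟨j, by
          rw [hJ0', mem_filter]
          exact ⟨mem_univ _, by rw [← hj]; exact hpr⟩, rfl⟩, rfl⟩
      · intro hpI
        obtain ⟨y, hy, hyp⟩ := mem_image.1 hpI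
        obtain ⟨j, hj, rfl⟩ := mem_image.1 hy
        rw [hJ0', mem_filter] at hj
        have h2 : a - p = t j := by
          have h3 := htadd j
          omega
        rw [h2]
        exact hj.2

end Pool.Agent.J6H13.GW
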