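import Pool.Agent.J6H13.GW.Main

set_option autoImplicit false

/-! Every single position: the case of one shift of `Pool.Agent.J6H13.GW.Main`, with no loss: the weights of
`Pool.Agent.H312R2.RG` which make the survivors composite cost nothing, and ONE prime `n + t` can be prescribed. -/

open Finset Filter
open scoped ContDiff

namespace Pool.Agent.J6H13.GW

open Pool.Agent.H378R2 Pool.Agent.H362R2.RQ
open Pool.Agent.H312R2.RG
open Pool.Agent.H398R2.PG (Et EE_sub_Et Et_res)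
open Pool.Agent.H256R2.SC (ff)

open Pool.Agent.J6H13.RW

/-- the final combination -/
theorem combine1 (Mm M2 II ε1 K κ l4 L JJs Z M M' M₂ S2v Tv Bv E2 E3 E4 : ℝ)
    (hMm : 0 < Mm) (hII : 0 < II) (hε1 : 0 < ε1) (hK : 0 < K) (hκ : 0 < κ) (hl4 : 1 ≤ l4)
    (hl4L : l4 ≤ 400 * L) (hL : 0 < L) (hε1le : K * ε1 ≤ κ * II / 2) (hε1le2 : ε1 ≤ II)
    (hJ : κ * II ≤ JJs) (hM2 : Mm * (L / 800) ≤ M2) (hZ : 1 ≤ Z)
    (hM1 : 3 / 4 * Z ≤ M) (hM' : 3 / 4 * M ≤ M') (hM₂0 : 0 ≤ M₂) (hE2 : 0 ≤ E2)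
    (H2 : M' * (M2 * (JJs - K * ε1)) - E2 ≤ S2v)
    (H3 : Tv ≤ M₂ * (Mm * (II + ε1)) + E3) (H4 : Bv ≤ E4)
    (hE : E2 + K * E3 + K * E4 ≤ Z * Mm * II * (κ / 10000000)) (hM₂ : K * M₂ ≤ Z * (κ / 10000000)) :
    0 < S2v / l4 - K * Tv - K * Bv := by
  have hZMI : 0 < Z * Mm * II * κ := by positivity
  have hMpos : 0 < M := by linarith
  have hM'pos : 0 < M' := by linarith
  have hJge : κ * II / 2 ≤ JJs - K * ε1 := by linarith
  have g1 : M' * (Mm * (1 / 320000) * (κ * II / 2)) - E2 ≤ S2v / l4 := by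
    rw [le_div_iff₀ (by linarith)]
    refine le_trans ?_ H2
    have h1 : M' * (Mm * (1 / 320000) * (κ * II / 2)) * l4 ≤ M' * (M2 * (JJs - K * ε1)) := by
      calc M' * (Mm * (1 / 320000) * (κ * II / 2)) * l4
          ≤ M' * (Mm * (1 / 320000) * (κ * II / 2)) * (400 * L) :=
            mul_le_mul_of_nonneg_left hl4L (by positivity)
        _ = M' * ((Mm * (L / 800)) * (κ * II / 2)) := by ring
        _ ≤ M' * (M2 * (JJs - K * ε1)) := by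
            apply mul_le_mul_of_nonneg_left _ hM'pos.le
            apply mul_le_mul hM2 hJge (by positivity)
            exact le_trans (by positivity) hM2
    have h2 : E2 * 1 ≤ E2 * l4 := mul_le_mul_of_nonneg_left hl4 hE2
    rw [sub_mul]
    linarith
  have g1' : Z * Mm * II * κ * (9 / 16 / 640000) - E2 ≤ S2v / l4 := by
    refine le_trans ?_ g1
    have h1 : Z * (9 / 16) ≤ M' := by linarith
    have h2 : 0 ≤ Mm * (1 / 320000) * (κ * II / 2) := by positivity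
    have h3 := mul_le_mul_of_nonneg_right h1 h2
    have h4 : Z * (9 / 16) * (Mm * (1 / 320000) * (κ * II / 2)) = Z * Mm * II * κ * (9 / 16 / 640000) := by ring
    linarith
  have g3 : K * Tv ≤ Z * Mm * II * κ * (2 / 10000000) + K * E3 := by
    have h1 : M₂ * (Mm * (II + ε1)) ≤ M₂ * (Mm * (2 * II)) := by
      apply mul_le_mul_of_nonneg_left _ hM₂0
      apply mul_le_mul_of_nonneg_left _ hMm.le
      linarith
    have h2 := mul_le_mul_of_nonneg_left (H3.trans (add_le_add_left h1 E3)) hK.le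
    have h3 : K * M₂ * (Mm * (2 * II)) ≤ Z * (κ / 10000000) * (Mm * (2 * II)) :=
      mul_le_mul_of_nonneg_right hM₂ (by positivity)
    calc K * Tv ≤ K * (M₂ * (Mm * (2 * II)) + E3) := h2
      _ = K * M₂ * (Mm * (2 * II)) + K * E3 := by ring
      _ ≤ Z * (κ / 10000000) * (Mm * (2 * II)) + K * E3 := by linarith
      _ = _ := by ring
  have g4 : K * Bv ≤ K * E4 := mul_le_mul_of_nonneg_left H4 hK.le
  have g5 : Z * Mm * II * (κ / 10000000) = Z * Mm * II * κ * (1 / 10000000) := by ring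
  rw [g5] at hE
  linarith

theorem pos_at1 (K0 B : ℕ) (f : Fin B → ℝ → ℝ) (c : Fin B → ℝ)
    (A : Finset (Fin (K0 + 1) → Fin B)) (hf0 : ∀ l x, c l < x → f l x = 0)
    (hA : ∀ a ∈ A, ∑ j, c (a j) ≤ 1) (hf1 : ∀ l x, |f l x| ≤ 1) (hIpos : 0 < II f A)
    (ε1 X κ : ℝ) (hε1 : 0 < ε1) (hκ : 0 < κ)
    (hε1le : ((K0 + 1 : ℕ) : ℝ) * ε1 ≤ κ * II f A / 2) (hε1le2 : ε1 ≤ II f A)
    (hratio : κ * II f A ≤ ∑ i, JJ f A i)
    (ps a0 : ℕ) (S : Finset ℕ) (t : Fin (K0 + 1) → ℕ)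
    (hX40 : 40 ≤ X) (hL1 : 1 ≤ LL X)
    (hMM : MPhi X / 400 ≤ LPhi X)
    (E : Finset ℕ) (hEsup : E ⊆ Esup X ps)
    (hBEPW : BE (PW X S ps) / 2 ≤ BE E)
    (V T : ℤ → ℝ) (Z₁ M M' M₂ t2 t3 : ℝ)
    (hV : ∀ a, 0 ≤ V a ∧ V a ≤ X ^ (1 / 100 : ℝ)) (hZ : 1 ≤ Z₁) (hM1 : 3 / 4 * Z₁ ≤ M)
    (hM' : 3 / 4 * M ≤ M') (hM₂0 : 0 ≤ M₂) (hM₂ : ((K0 + 1 : ℕ) : ℝ) * M₂ ≤ Z₁ * (κ / 10000000)) (ht3nn : 0 ≤ t3)
    (S2 : ∀ i, M' * ((LPhi X * (1 / ((WW X S ps).totient : ℝ))) * (1 / (LL X * BE E) ^ K0) *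
          (JJ f A i - ε1)) -
        (A.card : ℝ) ^ 2 * (t3 + Real.exp (2 * LL X) * X ^ (1 / 100 : ℝ) *
          ((4 * (Real.log X) ^ 2) * Real.log (4 * X) + 4 * Real.sqrt X * Real.log (4 * X))) ≤
      ∑ n ∈ Icc 1 ⌊3 * X⌋₊, nu X (WW X S ps) a0 n *
        (sqw E X f A (fun j => (n : ℤ) + t j) ^ 2 * V n * th (n + t i)))
    (TS : ∑ n ∈ Icc 1 ⌊3 * X⌋₊, nu X (WW X S ps) a0 n *
          (sqw E X f A (fun j => (n : ℤ) + t j) ^ 2 * (V n * T n)) ≤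
        M₂ * ((MPhi X * (1 / (WW X S ps : ℝ))) * (1 / (LL X * BE E) ^ (K0 + 1)) * (II f A + ε1)) +
          (A.card : ℝ) ^ 2 * t2)
    (e0 : ℝ) (he0 : 0 < e0) (he0' : e0 * 400000000 ≤ κ * II f A)
    (ht : ((K0 + 1 : ℕ) : ℝ) * ((A.card : ℝ) ^ 2 * t3) + ((K0 + 1 : ℕ) : ℝ) * ((A.card : ℝ) ^ 2 * t2) ≤
      Z₁ * ((X / ((WW X S ps : ℝ) * (Real.log X) ^ (K0 + 1))) * e0))
    (herr : ((K0 + 1 : ℕ) : ℝ) * ((A.card : ℝ) ^ 2 * (Real.exp (2 * LL X) * X ^ (1 / 100 : ℝ) *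
        ((4 * (Real.log X) ^ 2) * Real.log (4 * X) + 4 * Real.sqrt X * Real.log (4 * X)))) +
      ((K0 + 1 : ℕ) : ℝ) * (X ^ (9 / 10 : ℝ) * ((A.card : ℝ) ^ 2 * Real.exp (2 * LL X) * X ^ (1 / 100 : ℝ))) ≤
      (X / ((WW X S ps : ℝ) * (Real.log X) ^ (K0 + 1))) * e0)
    (bad : Finset ℕ) (hbad : (bad.card : ℝ) ≤ X ^ (9 / 10 : ℝ)) :
    0 < ∑ n ∈ Icc 1 ⌊3 * X⌋₊, (nu X (WW X S ps) a0 n * sqw E X f A (fun j => (n : ℤ) + t j) ^ 2 * V n) *
      ((∑ i, th (n + t i)) / Real.log (4 * X) - ((K0 + 1 : ℕ) : ℝ) * T n -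
      ((K0 + 1 : ℕ) : ℝ) * (if n ∈ bad then 1 else 0)) := by
  classical
  have hXpos : 0 < X := by linarith
  have hLl : LL X = Real.log X / 200 := rfl
  have hlogX : 200 ≤ Real.log X := by linarith
  have hWpos : 0 < WW X S ps := WW_pos X S ps
  have hWr : (0 : ℝ) < (WW X S ps : ℝ) := by exact_mod_cast hWpos
  have hBE : 0 < BE E := BE_pos fun p hp => Esup_prime (hEsup hp)
  have hBE1 : BE E ≤ 1 := BE_le_one fun p hp => Esup_prime (hEsup hp)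
  have hPWpos : 0 < BE (PW X S ps) := BE_pos fun p hp => (mem_PW.1 hp).2.1
  have hMge := MPhi_ge X hX40
  have hMpos : 0 < MPhi X := lt_of_lt_of_le (by positivity) hMge
  set Wn : ℕ → ℝ := fun n => nu X (WW X S ps) a0 n * sqw E X f A (fun j => (n : ℤ) + t j) ^ 2 * V n with hWn
  set bd : ℕ → ℝ := fun n => if n ∈ bad then 1 else 0 with hbd
  have hl4 : 1 ≤ Real.log (4 * X) := by
    rw [Real.log_mul (by norm_num) hXpos.ne']
    have := Real.log_nonneg (by norm_num : (1 : ℝ) ≤ 4)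
    linarith
  have hl4le : Real.log (4 * X) ≤ 400 * LL X := by
    rw [Real.log_mul (by norm_num) hXpos.ne']
    have h2 : Real.log 4 ≤ 2 := by
      have : Real.log 4 = 2 * Real.log 2 := by
        rw [show (4 : ℝ) = 2 ^ 2 by norm_num, Real.log_pow]; norm_num
      have := Real.log_two_lt_d9
      linarith
    rw [hLl]
    linarith
  set Mm : ℝ := (MPhi X * (1 / (WW X S ps : ℝ))) * (1 / (LL X * BE E) ^ (K0 + 1)) with hMm
  set M2 : ℝ := (LPhi X * (1 / ((WW X S ps).totient : ℝ))) * (1 / (LL X * BE E) ^ K0) with hM2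
  set sm : ℝ := Real.exp (2 * LL X) * X ^ (1 / 100 : ℝ) *
        ((4 * (Real.log X) ^ 2) * Real.log (4 * X) + 4 * Real.sqrt X * Real.log (4 * X)) with hsm
  have E2 : M' * (M2 * (∑ i, JJ f A i - ((K0 + 1 : ℕ) : ℝ) * ε1)) -
      ((K0 + 1 : ℕ) : ℝ) * ((A.card : ℝ) ^ 2 * (t3 + sm)) ≤
      ∑ n ∈ Icc 1 ⌊3 * X⌋₊, Wn n * ∑ i, th (n + t i) := by
    have h1 : ∑ n ∈ Icc 1 ⌊3 * X⌋₊, Wn n * ∑ i, th (n + t i) =
        ∑ i, ∑ n ∈ Icc 1 ⌊3 * X⌋₊, nu X (WW X S ps) a0 n *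
          (sqw E X f A (fun j => (n : ℤ) + t j) ^ 2 * V n * th (n + t i)) := by
      rw [Finset.sum_comm]
      refine Finset.sum_congr rfl fun n _ => ?_
      rw [Finset.mul_sum]
      refine Finset.sum_congr rfl fun i _ => ?_
      simp only [hWn]
      ring
    rw [h1]
    refine le_trans (le_of_eq ?_) (Finset.sum_le_sum fun i _ => S2 i)
    rw [Finset.sum_sub_distrib, ← Finset.mul_sum, ← Finset.mul_sum, Finset.sum_sub_distrib, Finset.sum_const,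
      Finset.sum_const, Finset.card_univ, Fintype.card_fin, nsmul_eq_mul, nsmul_eq_mul]
  have E3 : ∑ n ∈ Icc 1 ⌊3 * X⌋₊, Wn n * T n ≤ M₂ * (Mm * (II f A + ε1)) + (A.card : ℝ) ^ 2 * t2 := by
    refine le_trans (le_of_eq ?_) TS
    refine Finset.sum_congr rfl fun n _ => ?_
    simp only [hWn]
    ring
  have E4 : ∑ n ∈ Icc 1 ⌊3 * X⌋₊, Wn n * bd n ≤
      X ^ (9 / 10 : ℝ) * ((A.card : ℝ) ^ 2 * Real.exp (2 * LL X) * X ^ (1 / 100 : ℝ)) := by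
    have hq0 : 0 ≤ X ^ (1 / 100 : ℝ) := by positivity
    have h1 : ∀ n, Wn n ≤ (A.card : ℝ) ^ 2 * Real.exp (2 * LL X) * X ^ (1 / 100 : ℝ) := by
      intro n
      have h2 := sqw_sq_le E X (by linarith) f c A hf0 hA hf1 (fun j => (n : ℤ) + t j)
      have h3 : nu X (WW X S ps) a0 n ≤ 1 := by
        unfold nu
        split_ifs
        · exact Phi_le_one _
        · exact zero_le_one
      have h4 : nu X (WW X S ps) a0 n * sqw E X f A (fun j => (n : ℤ) + t j) ^ 2 ≤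
          (A.card : ℝ) ^ 2 * Real.exp (2 * LL X) := by
        calc nu X (WW X S ps) a0 n * sqw E X f A (fun j => (n : ℤ) + t j) ^ 2
            ≤ 1 * sqw E X f A (fun j => (n : ℤ) + t j) ^ 2 := mul_le_mul_of_nonneg_right h3 (sq_nonneg _)
          _ ≤ _ := by rw [one_mul]; exact h2
      exact mul_le_mul h4 (hV n).2 (hV n).1 (by positivity)
    have h2 : ∑ n ∈ Icc 1 ⌊3 * X⌋₊, Wn n * bd n = ∑ n ∈ (Icc 1 ⌊3 * X⌋₊).filter (fun n => n ∈ bad), Wn n := by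
      rw [Finset.sum_filter]
      refine Finset.sum_congr rfl fun n _ => ?_
      simp only [hbd]
      split_ifs
      · rw [mul_one]
      · rw [mul_zero]
    rw [h2]
    refine (Finset.sum_le_sum fun n _ => h1 n).trans ?_
    rw [Finset.sum_const, nsmul_eq_mul]
    apply mul_le_mul_of_nonneg_right _ (by positivity)
    refine le_trans ?_ hbad
    have h3 : ((Icc 1 ⌊3 * X⌋₊).filter (fun n => n ∈ bad)).card ≤ bad.card := by
      apply Finset.card_le_card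
      intro n hn
      exact (Finset.mem_filter.1 hn).2
    exact_mod_cast h3
  have e0' : ∑ n ∈ Icc 1 ⌊3 * X⌋₊, Wn n * ((∑ i, th (n + t i)) / Real.log (4 * X) -
      ((K0 + 1 : ℕ) : ℝ) * T n - ((K0 + 1 : ℕ) : ℝ) * bd n) =
      (∑ n ∈ Icc 1 ⌊3 * X⌋₊, Wn n * ∑ i, th (n + t i)) / Real.log (4 * X) -
      ((K0 + 1 : ℕ) : ℝ) * ∑ n ∈ Icc 1 ⌊3 * X⌋₊, Wn n * T n -
      ((K0 + 1 : ℕ) : ℝ) * ∑ n ∈ Icc 1 ⌊3 * X⌋₊, Wn n * bd n := by
    rw [Finset.sum_div, Finset.mul_sum, Finset.mul_sum, ← Finset.sum_sub_distrib,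
      ← Finset.sum_sub_distrib]
    refine Finset.sum_congr rfl fun n _ => ?_
    ring
  have hM2ge : Mm * (LL X / 800) ≤ M2 := by
    rw [hMm, hM2, totient_WW]
    exact M2_real (MPhi X) (LPhi X) (WW X S ps) (BE E) (BE (PW X S ps)) (LL X) K0 hMpos.le hWr hBE
      hPWpos (by linarith) hBEPW hMM
  have hMmge : X / ((WW X S ps : ℝ) * (Real.log X) ^ (K0 + 1)) / 20 ≤ Mm :=
    Mm_real X (MPhi X) (WW X S ps) (BE E) (LL X) (Real.log X) (K0 + 1) hXpos hWr hBE hBE1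
      (by linarith) (by rw [hLl]; linarith) hMge
  have hMmpos : 0 < Mm := by
    have : 0 < LL X := by linarith
    rw [hMm]
    positivity
  have hsmnn : 0 ≤ sm := by
    have : 0 ≤ Real.log (4 * X) := by linarith
    rw [hsm]
    positivity
  set P0 : ℝ := X / ((WW X S ps : ℝ) * (Real.log X) ^ (K0 + 1)) with hP0
  have hP0nn : 0 ≤ P0 := by rw [hP0]; positivity
  have hEtot : ((K0 + 1 : ℕ) : ℝ) * ((A.card : ℝ) ^ 2 * (t3 + sm)) +
      ((K0 + 1 : ℕ) : ℝ) * ((A.card : ℝ) ^ 2 * t2) +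
      ((K0 + 1 : ℕ) : ℝ) * (X ^ (9 / 10 : ℝ) * ((A.card : ℝ) ^ 2 * Real.exp (2 * LL X) * X ^ (1 / 100 : ℝ))) ≤
      Z₁ * Mm * II f A * (κ / 10000000) := by
    have h1 : P0 * e0 ≤ Z₁ * (P0 * e0) := le_mul_of_one_le_left (by positivity) hZ
    have h2 : Z₁ * (P0 * e0) + Z₁ * (P0 * e0) ≤ Z₁ * Mm * II f A * (κ / 10000000) := by
      have h3 : P0 / 20 * (Z₁ * (e0 * 40)) ≤ Mm * (Z₁ * (e0 * 40)) :=
        mul_le_mul_of_nonneg_right hMmge (by positivity)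
      have h4 : e0 * 40 ≤ κ * II f A / 10000000 := by linarith
      calc Z₁ * (P0 * e0) + Z₁ * (P0 * e0) = P0 / 20 * (Z₁ * (e0 * 40)) := by ring
        _ ≤ Mm * (Z₁ * (e0 * 40)) := h3
        _ ≤ Mm * (Z₁ * (κ * II f A / 10000000)) := by gcongr
        _ = _ := by ring
    have h4 : ((K0 + 1 : ℕ) : ℝ) * ((A.card : ℝ) ^ 2 * (t3 + sm)) =
        ((K0 + 1 : ℕ) : ℝ) * ((A.card : ℝ) ^ 2 * t3) + ((K0 + 1 : ℕ) : ℝ) * ((A.card : ℝ) ^ 2 * sm) := by ring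
    rw [h4]
    linarith
  have hgoal := combine1 Mm M2 (II f A) ε1 ((K0 + 1 : ℕ) : ℝ) κ (Real.log (4 * X)) (LL X) (∑ i, JJ f A i)
    Z₁ M M' M₂ _ _ _ _ _ _ hMmpos hIpos hε1 (by positivity) hκ hl4 hl4le
    (by linarith) hε1le hε1le2 hratio hM2ge hZ hM1 hM' hM₂0 (by positivity) E2 E3 E4 hEtot hM₂
  calc _ < _ := hgoal
    _ = _ := e0'.symm

/-- a single prescribed prime `n + t`: all the other shifts of `𝒮` give composite numbers -/
def StOne : Prop := ∃ c₃ : ℝ, 0 < c₃ ∧ ∀ z : ℕ, ∃ X0 : ℝ, ∀ X : ℝ, X0 ≤ X →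
  ∀ t : ℕ, t ≠ 0 → (t : ℝ) ≤ (Real.log X) ^ 2 →
  ∀ 𝒮 : Finset ℕ, (∀ s ∈ 𝒮, (s : ℝ) ≤ (Real.log X) ^ 2) → Cov c₃ z X 1 (fun _ => t) 𝒮 →
  ∀ bad : Finset ℕ, (bad.card : ℝ) ≤ X ^ (9 / 10 : ℝ) →
  ∃ n : ℕ, X < n ∧ (n : ℝ) ≤ 3 * X ∧ n ∉ bad ∧ (n + t).Prime ∧
    (∀ s ∈ 𝒮, (n + s).Prime → s = t) ∧ ∀ p : ℕ, p.Prime → p ≤ z → p ∣ n

theorem one_of (h5 : Pool.Agent.H378R2.SieveAsymp) (hbv : Pool.Agent.H378R2.BVrel)
    (hw : Weights) : StOne := by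
  classical
  have hg := gam_pos
  obtain ⟨K0, hK0⟩ : ∃ K0 : ℕ, K0 = 0 := ⟨_, rfl⟩
  obtain ⟨f, hf⟩ : ∃ f : Fin 1 → ℝ → ℝ, f = fun _ => fst := ⟨_, rfl⟩
  obtain ⟨c, hc'⟩ : ∃ c : Fin 1 → ℝ, c = fun _ => 1 / 2 := ⟨_, rfl⟩
  obtain ⟨A, hA'⟩ : ∃ A : Finset (Fin (0 + 1) → Fin 1), A = {fun _ => 0} := ⟨_, rfl⟩
  have hsm : ∀ l, ContDiff ℝ ∞ (f l) := fun l => by rw [hf]; exact hs_smooth _
  have hcs : ∀ l, HasCompactSupport (f l) := fun l => by rw [hf]; exact hs_compact (by norm_num)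
  have hf0 : ∀ l x, c l < x → f l x = 0 := by
    intro l x hx
    rw [hf]
    rw [hc'] at hx
    exact hs_zero (by norm_num) (hx.le.trans (le_abs_self x))
  have hc : ∀ l, 0 ≤ c l ∧ c l ≤ 1 / 2 := fun l => by rw [hc']; norm_num
  have hf1 : ∀ l x, |f l x| ≤ 1 := fun l x => by rw [hf]; exact hs_abs_le _ _
  have hA1 : ∀ a ∈ A, ∑ j, c (a j) ≤ 1 := by
    intro a _
    rw [hc']
    simp
    norm_num
  have hII : II f A = 2 * gam := by
    unfold II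
    rw [hA', Finset.sum_singleton, Finset.sum_singleton, hf]
    simp only [Fin.prod_univ_succ, Fin.prod_univ_zero, mul_one]
    exact DD_fst
  have hJJ : ∀ i, JJ f A i = 1 := by
    intro i
    unfold JJ
    rw [hA', Finset.sum_singleton, Finset.sum_singleton, hf]
    simp only [Fin.prod_univ_zero, mul_one]
    unfold fst
    rw [hs_at_zero]
    norm_num
  have hIpos : 0 < II f A := by rw [hII]; positivity
  obtain ⟨κ, hκ⟩ : ∃ κ : ℝ, κ = 1 / II f A := ⟨_, rfl⟩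
  have hκ0 : 0 < κ := by rw [hκ]; positivity
  have hκI : κ * II f A = 1 := by rw [hκ]; field_simp
  have hratio : κ * II f A ≤ ∑ i, JJ f A i := by
    rw [hκI]
    simp only [hJJ]
    simp
  obtain ⟨ε1, hε1⟩ : ∃ ε1 : ℝ, ε1 = min (1 / 2) (II f A) := ⟨_, rfl⟩
  have hε1pos : 0 < ε1 := by rw [hε1]; exact lt_min (by norm_num) hIpos
  have hε1le : (((0 : ℕ) + 1 : ℕ) : ℝ) * ε1 ≤ κ * II f A / 2 := by
    rw [hκI]
    push_cast
    have : ε1 ≤ 1 / 2 := by rw [hε1]; exact min_le_left _ _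
    linarith
  have hε1le2 : ε1 ≤ II f A := by rw [hε1]; exact min_le_right _ _
  have hKpos : (0 : ℝ) < ((0 + 1 : ℕ) : ℝ) := by norm_num
  obtain ⟨Aw, c₃, hc₃, hw1⟩ := hw (0 + 1) (0 + 5)
  refine ⟨c₃ / 2, by positivity, fun z => ?_⟩
  obtain ⟨Z, hZdef⟩ : ∃ Z : ℕ, Z = max 2 z := ⟨_, rfl⟩
  obtain ⟨X3, hbvX⟩ := hbv Aw (max Z 4)
  have hw2 := hw1 (max Z 4)
  obtain ⟨e0, he0⟩ : ∃ e0 : ℝ, e0 = 1 / 400000000 := ⟨_, rfl⟩
  have he0pos : 0 < e0 := by rw [he0]; norm_num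
  rw [← Filter.eventually_atTop]
  filter_upwards [S1_boundV h5 f c A hsm hcs hf0 hc hA1 hf1 ε1 hε1pos,
    S2_boundV h5 f c A hsm hcs hf0 hc hA1 hf1 ε1 hε1pos,
    LPhi_ge, errRG (0 + 1) A.card e0 (Nat.cast_nonneg _) he0pos,
    LL_tendsto.eventually_ge_atTop 1, eventually_ge_atTop 40, eventually_ge_atTop X3,
    Et2_sub (K := 0 + 1), BE_Et2_ge (0 + 1), ev_sqle, hw2,
    ev_mainQ 0 (3 * 1 * (A.card : ℝ) ^ 2 / e0) (10000000 / κ),
    Real.tendsto_log_atTop.eventually_ge_atTop (2 / c₃)]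
    with X hS1 hS2 hLP herr hL1 hX40 hX3 hEtsub hBEt hff hwX hmain hlc
  intro t' ht'0 ht'l 𝒮 h𝒮 hcov bad hbad
  obtain ⟨t, htdef⟩ : ∃ t : Fin (0 + 1) → ℕ, t = fun _ => t' := ⟨_, rfl⟩
  have htj : ∀ j, t j = t' := fun j => by rw [htdef]
  have htinj : Function.Injective t := fun i j _ => Fin.ext (by omega)
  have htup : ∀ j, t j ≠ 0 ∧ (t j : ℝ) ≤ (Real.log X) ^ 2 := fun j => by rw [htj]; exact ⟨ht'0, ht'l⟩
  obtain ⟨ps, S, hps, hS, hbvS⟩ := hbvX X hX3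
  have hpsZ : GoodP Z ps := by
    rcases hps with h | h
    · exact Or.inl h
    · exact Or.inr ⟨h.1, lt_of_le_of_lt (le_max_left _ _) h.2⟩
  rw [hZdef] at hpsZ
  obtain ⟨a0, hcop, hcard, ha0z⟩ := hcov ps S hpsZ hS
  replace hcop : ∀ j, (a0 + t j).Coprime (WW X S ps) := fun j => by rw [htj]; exact hcop 0
  replace hcard : ((𝒮.filter (fun s => (∀ j, s ≠ t j) ∧ (a0 + s).Coprime (WW X S ps))).card : ℝ) ≤
      c₃ / 2 * Real.log X := by
    rw [htdef]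
    exact hcard
  have htl : ∀ j, (t j : ℝ) ≤ (Real.log X) ^ 2 := fun j => (htup j).2
  have hWpos : 0 < WW X S ps := WW_pos X S ps
  have hWr : (0 : ℝ) < (WW X S ps : ℝ) := by exact_mod_cast hWpos
  have hXpos : 0 < X := by linarith
  have hlX : 1 ≤ Real.log X := hmain.2.2
  have htX : ∀ j, (t j : ℝ) ≤ X := fun j => (htl j).trans hff
  -- the survivors
  set U0 := 𝒮.filter (fun s => (∀ j, s ≠ t j) ∧ (a0 + s).Coprime (WW X S ps)) with hU0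
  set U := insert 0 U0 with hU
  have hUcard : (U.card : ℝ) ≤ c₃ * Real.log X := by
    have h1 : (U.card : ℝ) ≤ U0.card + 1 := by
      rw [hU]
      exact_mod_cast Finset.card_insert_le 0 U0
    have h2 : 2 / c₃ * c₃ ≤ Real.log X * c₃ := mul_le_mul_of_nonneg_right hlc hc₃.le
    have h3 : 2 / c₃ * c₃ = 2 := by field_simp
    rw [h3] at h2
    have h4 : c₃ / 2 * Real.log X = Real.log X * c₃ / 2 := by ring
    rw [h4] at hcard
    linarith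
  have hUk : ∀ k ∈ U, (k : ℝ) ≤ (Real.log X) ^ 2 := by
    intro k hk
    rw [hU, Finset.mem_insert] at hk
    rcases hk with rfl | hk
    · push_cast; positivity
    · rw [hU0, Finset.mem_filter] at hk
      exact h𝒮 k hk.1
  have hUt : ∀ j, t j ∉ U := by
    intro j hj
    rw [hU, Finset.mem_insert] at hj
    rcases hj with hj | hj
    · exact (htup j).1 hj
    · rw [hU0, Finset.mem_filter] at hj
      exact hj.2.1 j rfl
  have hUne : U.Nonempty := ⟨0, by rw [hU]; exact Finset.mem_insert_self _ _⟩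
  obtain ⟨V, T, Z₁, M, M', M₂, e₁, e₂, e₃, hV, hTnn, hTU, hZ1, hM1, hMZ, hM', hM₂0, hM₂le, he, hcA, hcA2, hcB,
    ht1, ht2, ht3⟩ := hwX ps S hps hS hbvS t U htl hUk hUt hUne hUcard
  set E := Et X S ps t with hE
  have hEE : EE X S ps ⊆ E := EE_sub_Et X S ps t
  have hEsup : E ⊆ Esup X ps := hEtsub ps S t htl
  have hres := Et_res (X := X) (S := S) (ps := ps) htinj
  have hMM : MPhi X / 400 ≤ LPhi X := by
    have := MPhi_le X (by linarith)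
    linarith
  have hM0 : 0 ≤ M := by linarith
  have hM'0 : 0 ≤ M' := by linarith
  have hM₂s : ((0 + 1 : ℕ) : ℝ) * M₂ ≤ Z₁ * (κ / 10000000) := by
    have h1 : ((0 + 1 : ℕ) : ℝ) * M₂ ≤ ((0 + 1 : ℕ) : ℝ) * (Z₁ / (Real.log X) ^ (0 + 5)) :=
      mul_le_mul_of_nonneg_left hM₂le hKpos.le
    refine h1.trans ?_
    have hlp : 0 < (Real.log X) ^ (0 + 5) := by positivity
    rw [mul_div_assoc', div_le_iff₀ hlp]
    have h2 := hmain.2.1
    rw [div_le_iff₀ hκ0] at h2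
    have h3 := mul_le_mul_of_nonneg_right h2 (show (0 : ℝ) ≤ Z₁ / 10000000 by linarith)
    push_cast
    linarith
  have htotnn : ∀ e : ℕ → ℝ, (∀ q, 0 ≤ e q) → 0 ≤ tot (0 + 1) X (WW X S ps) ps e := by
    intro e he'
    unfold tot
    exact Finset.sum_nonneg fun q _ => mul_nonneg (by positivity) (he' q)
  have herr1 := herr _ hWr (WW_le X (by linarith) S ps)
  have hpos := pos_at1 0 1 f c A hf0 hA1 hf1 hIpos ε1 X κ hε1pos hκ0 hε1le hε1le2 hratio ps a0 S t hX40 hL1 hMM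
    E hEsup (hBEt (max Z 4) ps S t (le_max_right _ _) hps hS htl) V T Z₁ M M' M₂ _ _ hV hZ1 hM1 hM' hM₂0
    hM₂s (htotnn e₃ fun q => (he q).2.2)
    (fun i => hS2 (max Z 4) ps S a0 t hps hS E hEE hEsup hres htl hcop V M' (X ^ (1 / 100 : ℝ)) e₃ hM'0
      (by positivity) (fun a => by rw [abs_of_nonneg (hV a).1]; exact (hV a).2) (fun q => (he q).2.2) i (hcB i))
    (hS1 (max Z 4) ps S a0 t hps hS E hEE hEsup hres (fun a => V a * T a) M₂ e₂ hM₂0 (fun q => (he q).2.1) hcA2)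
    e0 he0pos (by rw [hκI, he0]; norm_num)
    (by
      have h1 := tot_errQ 0 1 ((A.card : ℝ) ^ 2) e0 X (WW X S ps) Z₁ _ _ _ zero_le_one (sq_nonneg _) he0pos hXpos hWr
        hZ1 hlX hmain.1 ht1 ht2 ht3
      have h2 : 0 ≤ (A.card : ℝ) ^ 2 * tot (0 + 1) X (WW X S ps) ps e₁ :=
        mul_nonneg (sq_nonneg _) (htotnn e₁ fun q => (he q).1)
      push_cast
      linarith)
    herr1 bad hbad
  obtain ⟨n, hn, hnpos⟩ : ∃ n ∈ Icc 1 ⌊3 * X⌋₊, 0 < (nu X (WW X S ps) a0 n *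
      sqw E X f A (fun j => (n : ℤ) + t j) ^ 2 * V n) *
      ((∑ i, th (n + t i)) / Real.log (4 * X) - ((0 + 1 : ℕ) : ℝ) * T n -
      ((0 + 1 : ℕ) : ℝ) * (if n ∈ bad then 1 else 0)) := by
    by_contra hcon
    push Not at hcon
    exact absurd hpos (not_lt.2 (Finset.sum_nonpos hcon))
  have hWnn : 0 ≤ nu X (WW X S ps) a0 n * sqw E X f A (fun j => (n : ℤ) + t j) ^ 2 * V n :=
    mul_nonneg (mul_nonneg (nu_nonneg _ _ _ _) (sq_nonneg _)) (hV n).1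
  have hWpos' : 0 < nu X (WW X S ps) a0 n * sqw E X f A (fun j => (n : ℤ) + t j) ^ 2 * V n := by
    rcases hWnn.eq_or_lt with h | h
    · rw [← h, zero_mul] at hnpos; exact absurd hnpos (lt_irrefl _)
    · exact h
  have hBrpos := (mul_pos_iff_of_pos_left hWpos').1 hnpos
  have hnu : nu X (WW X S ps) a0 n ≠ 0 := by
    intro h
    rw [h, zero_mul, zero_mul] at hWpos'
    exact lt_irrefl _ hWpos'
  have hXn : X < n := by
    by_contra hle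
    push Not at hle
    apply hnu
    unfold nu
    rw [Phi_eq_zero_of_le (by positivity) (by rw [div_le_one hXpos]; exact hle), ite_self]
  have hcl : n ≡ a0 [MOD WW X S ps] := by
    by_contra h
    apply hnu
    unfold nu
    rw [if_neg h]
  have hn3 : (n : ℝ) ≤ 3 * X := by
    rw [Finset.mem_Icc] at hn
    exact (Nat.cast_le.2 hn.2).trans (Nat.floor_le (by linarith))
  have hyX : (yy X : ℝ) < X := by
    have h1 : (yy X : ℝ) ≤ Real.log X / 1000 := Nat.floor_le (by positivity)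
    have h2 := Real.log_le_sub_one_of_pos hXpos
    linarith
  have hfin := finishG 0 ((Real.log X) ^ 2) X ps a0 S 𝒮 t htl hX40 hff hyX U (by
    intro s hs hst hsc
    rw [hU, Finset.mem_insert]
    right
    rw [hU0, Finset.mem_filter]
    exact ⟨hs, hst, hsc⟩) T hTnn hTU bad n hXn hn3 hcl hBrpos
  refine ⟨n, hXn, hn3, hfin.1, ?_, fun s hs hp => ?_, ?_⟩
  · by_contra hnp
    have h1 : ∑ i, th (n + t i) = 0 := by
      apply Finset.sum_eq_zero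
      intro i _
      rw [htj]
      unfold th
      rw [if_neg hnp]
    rw [h1, zero_div] at hBrpos
    have h2 := hTnn n
    have h3 : (0 : ℝ) ≤ (if n ∈ bad then 1 else 0) := by split_ifs <;> norm_num
    push_cast at hBrpos
    linarith
  · obtain ⟨j, hj⟩ := hfin.2 s hs hp
    rw [hj, htj]
  · intro p hpp hpz
    obtain ⟨h1, h2⟩ := ha0z p hpp hpz
    exact (Nat.modEq_zero_iff_dvd).1 ((hcl.of_dvd h2).trans ((Nat.modEq_zero_iff_dvd).2 h1))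

end Pool.Agent.J6H13.GW
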