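import Pool.Agent.J6H13.GW.Box
import Pool.Agent.J6H13.GW.One
import Pool.Agent.H378R2.M7m

/-! Every odd prime up to `c F(X)` is the only small summand of many even numbers. -/

set_option autoImplicit false

open Finset Filter

namespace Pool.Agent.J6H13.GW

open Pool.Agent.H378R2
open Pool.Agent.H256R2.SC (ff t1 t2 t3 t4)

theorem one_sub_sum_le (s : Finset ℕ) (x : ℕ → ℝ) (h : ∀ i ∈ s, 0 ≤ x i ∧ x i ≤ 1) :
    1 - ∑ i ∈ s, x i ≤ ∏ i ∈ s, (1 - x i) := by
  classical
  induction s using Finset.induction_on with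
  | empty => simp
  | insert a s ha ih =>
    rw [sum_insert ha, prod_insert ha]
    have h1 := ih (fun i hi => h i (mem_insert_of_mem hi))
    obtain ⟨h2, h3⟩ := h a (mem_insert_self a s)
    have h4 : ∏ i ∈ s, (1 - x i) ≤ 1 := by
      apply prod_le_one
      · intro i hi
        have := (h i (mem_insert_of_mem hi)).2
        linarith
      · intro i hi
        have := (h i (mem_insert_of_mem hi)).1
        linarith
    nlinarith

theorem ev_class : ∀ᶠ Y : ℝ in atTop,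
    2 * Real.sqrt (3 * Y) * Real.log (3 * Y) * Real.exp (Real.log Y / 700) < Y / 400 := by
  have e1 := (isLittleO_log_rpow_atTop (show (0 : ℝ) < 1 / 8 by norm_num)).bound (show (0 : ℝ) < 1 by norm_num)
  filter_upwards [e1, eventually_ge_atTop (3 : ℝ),
    (tendsto_rpow_atTop (show (0 : ℝ) < 1 / 4 by norm_num)).eventually_gt_atTop 3200] with Y h1 h2 h3
  have hY0 : 0 < Y := by linarith
  rw [Real.norm_of_nonneg (Real.log_nonneg (by linarith)), Real.norm_of_nonneg (by positivity), one_mul] at h1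
  have h4 : Real.log (3 * Y) ≤ 2 * Y ^ (1 / 8 : ℝ) := by
    have : Real.log (3 * Y) ≤ Real.log (Y * Y) := Real.log_le_log (by positivity) (by nlinarith)
    rw [Real.log_mul hY0.ne' hY0.ne'] at this
    linarith
  have h5 : Real.exp (Real.log Y / 700) ≤ Y ^ (1 / 8 : ℝ) := by
    rw [Real.rpow_def_of_pos hY0]
    apply Real.exp_le_exp.2
    have : 0 ≤ Real.log Y := Real.log_nonneg (by linarith)
    linarith
  have h6 : Real.sqrt (3 * Y) ≤ 2 * Y ^ (1 / 2 : ℝ) := by
    rw [Real.sqrt_eq_rpow, Real.mul_rpow (by norm_num) hY0.le]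
    apply mul_le_mul_of_nonneg_right _ (by positivity)
    rw [← Real.sqrt_eq_rpow]
    rw [Real.sqrt_le_left (by norm_num)]
    norm_num
  have h0 : 0 ≤ Real.log (3 * Y) := Real.log_nonneg (by linarith)
  calc 2 * Real.sqrt (3 * Y) * Real.log (3 * Y) * Real.exp (Real.log Y / 700)
      ≤ 2 * (2 * Y ^ (1 / 2 : ℝ)) * (2 * Y ^ (1 / 8 : ℝ)) * Y ^ (1 / 8 : ℝ) := by gcongr
    _ = 8 * (Y ^ (1 / 2 : ℝ) * Y ^ (1 / 8 : ℝ) * Y ^ (1 / 8 : ℝ)) := by ring
    _ = 8 * Y ^ (3 / 4 : ℝ) := by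
      rw [← Real.rpow_add hY0, ← Real.rpow_add hY0]
      norm_num
    _ < Y ^ (1 / 4 : ℝ) / 400 * Y ^ (3 / 4 : ℝ) := by
      have : 0 < Y ^ (3 / 4 : ℝ) := by positivity
      apply mul_lt_mul_of_pos_right _ this
      linarith
    _ = Y / 400 := by
      rw [div_mul_eq_mul_div, ← Real.rpow_add hY0]
      norm_num

/-- primes in the classes modulo the big modulus -/
theorem prime_class (hbv : BVrel) : ∀ᶠ Y : ℝ in atTop, ∃ (ps : ℕ) (S : Finset ℕ), GoodP 4 ps ∧ GoodS Y S ∧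
    ∀ b : ℕ, b.Coprime (WW Y S ps) → ∃ q : ℕ, q.Prime ∧ Y < q ∧ (q : ℝ) ≤ 3 * Y ∧ q ≡ b [MOD WW Y S ps] := by
  obtain ⟨X0, h⟩ := hbv 1 4
  filter_upwards [eventually_ge_atTop X0, LPhi_ge, ev_class, eventually_ge_atTop (1 : ℝ),
    Real.tendsto_log_atTop.eventually_ge_atTop 400] with Y hY hL hev hY1 hlog
  obtain ⟨ps, S, hps, hS, hbvS⟩ := h Y hY
  refine ⟨ps, S, hps, hS, fun b hb => ?_⟩
  have hY0 : 0 < Y := by linarith
  have h1 := hbvS (fun q => if q = 1 then b else 1) (by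
    intro q _
    split_ifs with h
    · rw [h, mul_one]; exact hb
    · exact Nat.coprime_one_left _)
  have hmem : 1 ∈ (Icc 1 ⌊Y ^ (1 / 100 : ℝ)⌋₊).filter (fun q => Squarefree q ∧ q.Coprime (WW Y S ps * ps)) := by
    rw [mem_filter, mem_Icc]
    refine ⟨⟨le_rfl, ?_⟩, squarefree_one, Nat.coprime_one_left _⟩
    rw [Nat.one_le_floor_iff]
    exact Real.one_le_rpow hY1 (by norm_num)
  have h2 := (single_le_sum (f := fun q : ℕ => (q.divisors.card : ℝ) ^ 1 *
    |EPhi Y (WW Y S ps * q) ((fun q => if q = 1 then b else 1) q)|) (fun q _ => by positivity) hmem).trans h1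
  simp only [Nat.divisors_one, card_singleton, Nat.cast_one, one_mul, mul_one, if_true, pow_one] at h2
  have hWpos : 0 < WW Y S ps := WW_pos Y S ps
  have hφ : (0 : ℝ) < (WW Y S ps).totient := by exact_mod_cast Nat.totient_pos.2 hWpos
  have hφW : ((WW Y S ps).totient : ℝ) ≤ Real.exp (Real.log Y / 700) :=
    (by exact_mod_cast Nat.totient_le _ : ((WW Y S ps).totient : ℝ) ≤ WW Y S ps).trans (WW_le Y hY1 S ps)
  by_contra hcon
  push Not at hcon
  have h3 : ∑ n ∈ (Icc 1 ⌊3 * Y⌋₊).filter (fun n => n ≡ b [MOD WW Y S ps]),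
      Phi (n / Y) * ArithmeticFunction.vonMangoldt n ≤ 2 * Real.sqrt (3 * Y) * Real.log (3 * Y) := by
    refine le_trans ?_ (sum_nonprime_le (3 * Y) (by linarith))
    have h4 : ∀ n ∈ (Icc 1 ⌊3 * Y⌋₊).filter (fun n => n ≡ b [MOD WW Y S ps]),
        Phi (n / Y) * ArithmeticFunction.vonMangoldt n ≤
          if ¬ n.Prime then ArithmeticFunction.vonMangoldt n else 0 := by
      intro n hn
      rw [mem_filter, mem_Icc] at hn
      have hΛ : 0 ≤ ArithmeticFunction.vonMangoldt n := ArithmeticFunction.vonMangoldt_nonneg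
      split_ifs with hp
      · by_cases hnY : (n : ℝ) ≤ Y
        · rw [Phi_eq_zero_of_le (by positivity) (by rw [div_le_one hY0]; exact hnY), zero_mul]
        · push Not at hnY
          have h5 : (n : ℝ) ≤ 3 * Y := (Nat.le_floor_iff (by positivity)).1 hn.1.2
          exact absurd hn.2 (hcon n hp hnY h5)
      · calc Phi (n / Y) * ArithmeticFunction.vonMangoldt n ≤ 1 * ArithmeticFunction.vonMangoldt n :=
              mul_le_mul_of_nonneg_right (Phi_le_one _) hΛ
          _ = _ := one_mul _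
    refine (sum_le_sum h4).trans ?_
    rw [sum_filter]
    rw [sum_filter]
    apply sum_le_sum
    intro n _
    have hΛ : 0 ≤ ArithmeticFunction.vonMangoldt n := ArithmeticFunction.vonMangoldt_nonneg
    split_ifs <;> first | exact le_rfl | exact hΛ
  rw [EPhi_eq] at h2
  have h5 := (abs_le.1 h2).1
  have h6 : Y / 400 / (WW Y S ps).totient ≤ 2 * Real.sqrt (3 * Y) * Real.log (3 * Y) := by
    refine le_trans ?_ h3
    have h7 : Y / (((WW Y S ps).totient : ℝ) * Real.log Y) ≤ Y / 400 / (WW Y S ps).totient := by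
      rw [div_div, mul_comm]
      apply div_le_div_of_nonneg_left hY0.le (by positivity)
      exact mul_le_mul_of_nonneg_right hlog hφ.le
    have h8 : Y / 200 / (WW Y S ps).totient ≤ LPhi Y * (1 / ((WW Y S ps).totient : ℝ)) := by
      rw [mul_one_div]
      gcongr
    have h9 : Y / 200 / ((WW Y S ps).totient : ℝ) = 2 * (Y / 400 / (WW Y S ps).totient) := by ring
    linarith
  rw [div_le_iff₀ hφ] at h6
  have h0 : 0 ≤ 2 * Real.sqrt (3 * Y) * Real.log (3 * Y) := by
    have := Real.log_nonneg (show (1 : ℝ) ≤ 3 * Y by linarith)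
    positivity
  have h10 := mul_le_mul_of_nonneg_left hφW h0
  linarith

theorem ev_y : ∀ᶠ Y : ℝ in atTop, 1 ≤ Y ∧ 2 ≤ yy Y ∧ Real.log Y / 2000 ≤ yy Y ∧
    16000 ≤ Real.log (yy Y : ℝ) ∧ 6 / (Real.log (Real.log Y)) ^ 2 ≤ 1 / 4 ∧ 2 ≤ z2 Y := by
  have hyy : Tendsto (fun X : ℝ => (yy X : ℝ)) atTop atTop := by
    have h1 : Tendsto (fun X : ℝ => Real.log X / 1000) atTop atTop :=
      Real.tendsto_log_atTop.atTop_div_const (by norm_num)
    have h2 : Tendsto (fun X : ℝ => ⌊Real.log X / 1000⌋₊) atTop atTop := tendsto_nat_floor_atTop.comp h1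
    exact tendsto_natCast_atTop_atTop.comp h2
  filter_upwards [eventually_ge_atTop (1 : ℝ), hyy.eventually_ge_atTop 2, t1.eventually_ge_atTop 2000,
    (Real.tendsto_log_atTop.comp hyy).eventually_ge_atTop 16000, t2.eventually_ge_atTop 5] with Y h1 h2 h3 h4 h5
  refine ⟨h1, by exact_mod_cast h2, ?_, h4, ?_, ?_⟩
  · have h6 : Real.log Y / 1000 < (yy Y : ℝ) + 1 := Nat.lt_floor_add_one _
    linarith
  · rw [div_le_iff₀ (by positivity)]
    nlinarith
  · have h6 : Real.log (Real.log Y) ^ 3 ≤ (z2 Y : ℝ) := Nat.le_ceil _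
    have h7 : (2 : ℝ) ≤ Real.log (Real.log Y) ^ 3 := by
      calc (2 : ℝ) ≤ 5 ^ 3 := by norm_num
        _ ≤ _ := pow_le_pow_left₀ (by norm_num) h5 3
    exact_mod_cast h7.trans h6

/-- for every odd prime `p ≤ Y` there is a prime `q ∈ (Y, 3 Y]` such that `p + q` has few small prime factors -/
theorem good_a (hbv : BVrel) : ∀ᶠ Y : ℝ in atTop, ∀ p : ℕ, p.Prime → p ≠ 2 → (p : ℝ) ≤ Y →
    ∃ q : ℕ, q.Prime ∧ Y < q ∧ (q : ℝ) ≤ 3 * Y ∧ 2 ∣ p + q ∧
      1 / 8 ≤ ∏ r ∈ (p + q).primeFactors, (1 - 1 / (r : ℝ)) := by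
  classical
  filter_upwards [prime_class hbv, ev_y, t1.eventually_ge_atTop 2] with Y hcl hy hl2 p hp hp2 hpY
  obtain ⟨ps, S, hps, hS, hq⟩ := hcl
  obtain ⟨hY1, hyy2, hyl, hlyy, hS4, hz2⟩ := hy
  have hY0 : 0 < Y := by linarith
  obtain ⟨v, hv⟩ : ∃ v : ℕ → ℕ, v = fun r => if r ∣ p + 1 ∧ r ≠ 2 then 2 else 1 := ⟨_, rfl⟩
  obtain ⟨b, hb⟩ := Nat.chineseRemainderOfFinset v (fun r => r) (PW Y S ps)
    (fun r hr => (mem_PW.1 hr).2.1.ne_zero)
    (fun r hr r' hr' hrr => (Nat.coprime_primes (mem_PW.1 (by simpa using hr)).2.1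
      (mem_PW.1 (by simpa using hr')).2.1).2 hrr)
  have hvr : ∀ r : ℕ, r.Prime → ¬ r ∣ v r ∧ (r ≠ 2 → ¬ r ∣ p + v r) := by
    intro r hr
    rw [hv]
    dsimp only
    split_ifs with h
    · constructor
      · intro hd
        exact h.2 ((Nat.prime_dvd_prime_iff_eq hr Nat.prime_two).1 hd)
      · intro _ hd
        have h1 : r ∣ (p + 2) - (p + 1) := Nat.dvd_sub hd h.1
        have h2 : (p + 2) - (p + 1) = 1 := by omega
        rw [h2] at h1
        exact hr.one_lt.ne' (Nat.dvd_one.1 h1)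
    · constructor
      · intro hd
        exact hr.one_lt.ne' (Nat.dvd_one.1 hd)
      · intro h2 hd
        exact h ⟨hd, h2⟩
  have hbc : b.Coprime (WW Y S ps) := by
    unfold WW
    rw [Nat.coprime_prod_right_iff]
    intro r hr
    have hrp := (mem_PW.1 hr).2.1
    rw [Nat.coprime_comm, hrp.coprime_iff_not_dvd]
    intro hd
    have h1 : v r ≡ 0 [MOD r] := (hb r hr).symm.trans ((Nat.modEq_zero_iff_dvd).2 hd)
    exact (hvr r hrp).1 ((Nat.modEq_zero_iff_dvd).1 h1)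
  obtain ⟨q, hqp, hqY, hq3, hqb⟩ := hq b hbc
  have hodd : q % 2 = 1 := by
    rcases hqp.eq_two_or_odd with h | h
    · exfalso
      have : (yy Y : ℝ) ≤ Real.log Y / 1000 := Nat.floor_le (by positivity)
      have h1 : (2 : ℝ) ≤ yy Y := by exact_mod_cast hyy2
      have h2 := Real.log_le_sub_one_of_pos hY0
      rw [h] at hqY
      push_cast at hqY
      linarith
    · exact h
  have hpodd : p % 2 = 1 := hp.eq_two_or_odd.resolve_left hp2
  refine ⟨q, hqp, hqY, hq3, by omega, ?_⟩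
  set a := p + q with ha
  have ha0 : a ≠ 0 := by have := hp.pos; omega
  have hnd : ∀ r ∈ PW Y S ps, r ≠ 2 → ¬ r ∣ a := by
    intro r hr hr2 hd
    have hrp := (mem_PW.1 hr).2.1
    have h1 : q ≡ v r [MOD r] := (hqb.of_dvd ((prime_dvd_WW hrp).2 hr)).trans (hb r hr)
    have h2 : p + v r ≡ 0 [MOD r] := (h1.symm.add_left p).trans ((Nat.modEq_zero_iff_dvd).2 hd)
    exact (hvr r hrp).2 hr2 ((Nat.modEq_zero_iff_dvd).1 h2)
  have hfac : ∀ r : ℕ, r.Prime → (1 / 2 : ℝ) ≤ 1 - 1 / (r : ℝ) ∧ 1 / (r : ℝ) ≤ 1 := by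
    intro r hr
    have h2 : (2 : ℝ) ≤ r := by exact_mod_cast hr.two_le
    have : 1 / (r : ℝ) ≤ 1 / 2 := one_div_le_one_div_of_le (by norm_num) h2
    constructor <;> linarith
  rw [← Finset.prod_filter_mul_prod_filter_not a.primeFactors (fun r => r = 2 ∨ r = ps)]
  set F2 := a.primeFactors.filter (fun r => r = 2 ∨ r = ps) with hF2
  set F3 := a.primeFactors.filter (fun r => ¬ (r = 2 ∨ r = ps)) with hF3
  have h2 : (1 / 4 : ℝ) ≤ ∏ r ∈ F2, (1 - 1 / (r : ℝ)) := by
    have e1 : F2.card ≤ 2 := by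
      have : F2 ⊆ {2, ps} := by
        intro r hr
        rw [hF2, mem_filter] at hr
        simpa using hr.2
      exact (card_le_card this).trans card_le_two
    have e2 : ∏ _r ∈ F2, (1 / 2 : ℝ) ≤ ∏ r ∈ F2, (1 - 1 / (r : ℝ)) := by
      apply Finset.prod_le_prod
      · intro r _; norm_num
      · intro r hr
        exact (hfac r (Nat.prime_of_mem_primeFactors (mem_filter.1 hr).1)).1
    rw [prod_const] at e2
    refine le_trans ?_ e2
    calc (1 / 4 : ℝ) = (1 / 2) ^ 2 := by norm_num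
      _ ≤ _ := pow_le_pow_of_le_one (by norm_num) (by norm_num) e1
  have h3 : (1 / 2 : ℝ) ≤ ∏ r ∈ F3, (1 - 1 / (r : ℝ)) := by
    have e1 := one_sub_sum_le F3 (fun r => 1 / (r : ℝ)) (fun r hr =>
      ⟨by positivity, (hfac r (Nat.prime_of_mem_primeFactors (mem_filter.1 hr).1)).2⟩)
    refine le_trans ?_ e1
    have e2 : ∑ r ∈ F3, 1 / (r : ℝ) ≤ ∑ r ∈ S, 1 / (r : ℝ) + ∑ r ∈ F3.filter (fun r => yy Y < r), 1 / (r : ℝ) := by
      have hsub : F3 ⊆ S ∪ F3.filter (fun r => yy Y < r) := by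
        intro r hr
        rw [mem_union, mem_filter]
        by_cases hrS : r ∈ S
        · exact Or.inl hrS
        · right
          refine ⟨hr, ?_⟩
          by_contra hle
          push Not at hle
          rw [hF3, mem_filter] at hr
          push Not at hr
          have hrp := Nat.prime_of_mem_primeFactors hr.1
          exact hnd r (mem_PW.2 ⟨hle, hrp, hrS, hr.2.2⟩) hr.2.1 (Nat.dvd_of_mem_primeFactors hr.1)
      calc ∑ r ∈ F3, 1 / (r : ℝ) ≤ ∑ r ∈ S ∪ F3.filter (fun r => yy Y < r), 1 / (r : ℝ) :=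
            sum_le_sum_of_subset_of_nonneg hsub (fun _ _ _ => by positivity)
        _ ≤ _ := by
            rw [← sum_union_inter]
            have : 0 ≤ ∑ r ∈ S ∩ F3.filter (fun r => yy Y < r), 1 / (r : ℝ) := sum_nonneg fun _ _ => by positivity
            linarith
    have e3 : ∑ r ∈ S, 1 / (r : ℝ) ≤ 1 / 4 := hS.2.trans hS4
    have hyy0 : (0 : ℝ) < yy Y := by exact_mod_cast (by omega : 0 < yy Y)
    have hlyy0 : 0 < Real.log (yy Y : ℝ) := by linarith
    have e4 : ∑ r ∈ F3.filter (fun r => yy Y < r), 1 / (r : ℝ) ≤ 1 / 4 := by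
      set G := F3.filter (fun r => yy Y < r) with hG
      have hGp : ∀ r ∈ G, r.Prime ∧ yy Y < r ∧ r ∣ a := by
        intro r hr
        rw [hG, mem_filter, hF3, mem_filter] at hr
        exact ⟨Nat.prime_of_mem_primeFactors hr.1.1, hr.2, Nat.dvd_of_mem_primeFactors hr.1.1⟩
      have g1 : ∑ r ∈ G, 1 / (r : ℝ) ≤ G.card * (1 / (yy Y : ℝ)) := by
        rw [← nsmul_eq_mul]
        apply sum_le_card_nsmul
        intro r hr
        apply one_div_le_one_div_of_le hyy0
        exact_mod_cast (hGp r hr).2.1.le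
      have g2 : (yy Y) ^ G.card ≤ a := by
        have g3 : ∏ r ∈ G, r ∣ a := by
          apply Finset.prod_primes_dvd
          · intro r hr
            exact (hGp r hr).1.prime
          · intro r hr
            exact (hGp r hr).2.2
        refine le_trans ?_ (Nat.le_of_dvd (Nat.pos_of_ne_zero ha0) g3)
        exact Finset.pow_card_le_prod G _ _ (fun r hr => (hGp r hr).2.1.le)
      have haR : (a : ℝ) ≤ 4 * Y := by rw [ha]; push_cast; linarith
      have g4 : (G.card : ℝ) * Real.log (yy Y) ≤ Real.log (4 * Y) := by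
        rw [← Real.log_pow]
        apply Real.log_le_log (by positivity)
        refine le_trans ?_ haR
        exact_mod_cast g2
      have g5 : Real.log (4 * Y) ≤ 2 * Real.log Y := by
        rw [Real.log_mul (by norm_num) hY0.ne']
        have : Real.log 4 ≤ 2 := by
          have e5 : Real.log 4 = 2 * Real.log 2 := by
            rw [show (4 : ℝ) = 2 ^ 2 by norm_num, Real.log_pow]; norm_num
          have := Real.log_two_lt_d9
          linarith
        linarith
      have g6 : (G.card : ℝ) * 16000 ≤ G.card * Real.log (yy Y) := mul_le_mul_of_nonneg_left hlyy (Nat.cast_nonneg _)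
      refine g1.trans ?_
      rw [mul_one_div, div_le_iff₀ hyy0]
      linarith
    linarith
  calc (1 / 8 : ℝ) = 1 / 4 * (1 / 2) := by norm_num
    _ ≤ _ := mul_le_mul h2 h3 (by norm_num) (by linarith)

theorem every_of (hbv : BVrel) (h : StOne) : ∃ δ : ℝ, 0 < δ ∧ ∃ X₀ : ℝ, ∀ X : ℝ, X₀ ≤ X → ∀ p : ℕ, p.Prime →
    p ≠ 2 → (p : ℝ) ≤ δ * ffG X → X ^ (9 / 10 : ℝ) ≤ (cntG (δ * ffG X) X {p} : ℝ) := by
  classical
  obtain ⟨c₃, hc₃, hz⟩ := h
  obtain ⟨c₂, hc₂, hcov⟩ := covG 1 4 (1 / 8) (by norm_num) (by norm_num) (by norm_num) c₃ hc₃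
  refine ⟨c₂ / 2, by positivity, ?_⟩
  obtain ⟨Y0, hY0⟩ := eventually_atTop.1 (good_a hbv)
  obtain ⟨X1, hX1⟩ := hz 2
  obtain ⟨X3, hX3⟩ := hcov 2
  obtain ⟨X2, hX2⟩ := eventually_atTop.1 ((scaleG (c₂ / 4) (by positivity)).and
    ((ffG_sq (4 * c₂) (by positivity)).and ((ffG_tendsto.eventually_ge_atTop ((max Y0 1 + 2) / (c₂ / 2))).and
      ((t1.eventually_ge_atTop 1).and (ev_sqle.and (eventually_ge_atTop (1 : ℝ)))))))
  refine ⟨max X1 (max X2 X3), fun X hXX p hp hp2 hpX => ?_⟩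
  have hX1' : X1 ≤ X := (le_max_left _ _).trans hXX
  have hX2' : X2 ≤ X := ((le_max_left _ _).trans (le_max_right _ _)).trans hXX
  have hX3' : X3 ≤ X := ((le_max_right _ _).trans (le_max_right _ _)).trans hXX
  obtain ⟨e1, e2, e3, e4, e5, e6⟩ := hX2 X hX2'
  have hcff : max Y0 1 + 2 ≤ c₂ / 2 * ffG X := by
    rw [div_le_iff₀ (by positivity)] at e3
    linarith
  have hm1 : (1 : ℝ) ≤ max Y0 1 := le_max_right _ _
  have hffG0 : 0 ≤ ffG X := by
    by_contra hneg
    push Not at hneg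
    have : c₂ / 2 * ffG X ≤ 0 := mul_nonpos_of_nonneg_of_nonpos (by positivity) hneg.le
    linarith
  set H : ℕ := ⌊c₂ * ffG X⌋₊ with hH
  have hHhi : (H : ℝ) ≤ c₂ * ffG X := Nat.floor_le (by positivity)
  have hHlo : c₂ * ffG X < (H : ℝ) + 1 := Nat.lt_floor_add_one _
  have hHhalf : c₂ / 2 * ffG X ≤ H := by linarith
  have hHY : Y0 ≤ (H : ℝ) := by
    have : Y0 ≤ max Y0 1 := le_max_left _ _
    linarith
  obtain ⟨q, hqp, hqH, hq3, h2a, hθ⟩ := hY0 (H : ℝ) hHY p hp hp2 (hpX.trans hHhalf)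
  obtain ⟨a, ha⟩ : ∃ a : ℕ, a = p + q := ⟨_, rfl⟩
  rw [← ha] at h2a hθ
  have hqH' : H < q := by exact_mod_cast hqH
  have haR : (a : ℝ) ≤ 4 * H := by
    rw [ha]
    push_cast
    have := hpX.trans hHhalf
    linarith
  have haL : (a : ℝ) ≤ (Real.log X) ^ 2 := by
    refine le_trans ?_ e2
    linarith
  have hyH : (yy X : ℝ) < H := by
    have h1 : (yy X : ℝ) ≤ Real.log X / 1000 := Nat.floor_le (by positivity)
    have h2 : c₂ / 4 * ffG X ≤ H := by
      have : 0 ≤ c₂ * ffG X := by positivity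
      linarith
    linarith
  have hyH' : yy X < H := by exact_mod_cast hyH
  have hqa : q ≤ a := by omega
  have hqaR : (q : ℝ) ≤ a := by exact_mod_cast hqa
  have hCov := hX3 X hX3' H a hyH'.le hHhi (by omega) haR hθ (fun _ => q)
    (fun _ => ⟨hqp, hyH'.trans hqH', hqa⟩)
  have hXpos : 0 < X := by linarith
  obtain ⟨_, 𝒜, h𝒜, h𝒜p⟩ := many_of (α := Unit) (fun n : ℕ => X < n ∧ (n : ℝ) ≤ 3 * X ∧ (n + q).Prime ∧
      (∀ s ∈ dif a H, (n + s).Prime → s = q) ∧ 2 ∣ n)
    (fun _ => ()) ⌊3 * X⌋₊ (X ^ (9 / 10 : ℝ)) (by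
      intro bad hbad
      obtain ⟨n, hn1, hn2, hn3, hnq, hs, hzn⟩ := hX1 X hX1' q hqp.ne_zero (hqaR.trans haL) (dif a H) (by
          intro s hs
          unfold dif at hs
          obtain ⟨r', hr', rfl⟩ := mem_image.1 hs
          have : a - r' ≤ a := Nat.sub_le _ _
          exact (by exact_mod_cast this : ((a - r' : ℕ) : ℝ) ≤ a).trans haL) hCov bad hbad
      exact ⟨n, Nat.le_floor hn2, hn3, hn1, hn2, hnq, hs, hzn 2 Nat.prime_two le_rfl⟩)
  rw [Fintype.card_unit, Nat.cast_one, div_one] at h𝒜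
  have haX : (a : ℝ) ≤ X := haL.trans e5
  refine h𝒜.trans ?_
  rw [← card_image_of_injective 𝒜 (add_left_injective a)]
  unfold cntG
  apply Nat.cast_le.2
  apply card_le_card
  intro m hm
  obtain ⟨n, hn, rfl⟩ := mem_image.1 hm
  obtain ⟨-, ⟨hn1, hn2, hnq, hs, hneven⟩, -⟩ := h𝒜p n hn
  simp only [mem_filter, mem_range]
  refine ⟨?_, even_iff_two_dvd.2 (hneven.add h2a), ?_, ?_⟩
  · rw [Nat.lt_succ_iff]
    apply Nat.le_floor
    push_cast
    linarith
  · push_cast
    have : (0 : ℝ) ≤ a := Nat.cast_nonneg _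
    linarith
  · intro r hr hrle
    have hrH : r ≤ H := by
      have : (r : ℝ) ≤ H := hrle.trans hHhalf
      exact_mod_cast this
    have e7 : n + a - r = n + (a - r) := by omega
    rw [e7, mem_singleton]
    constructor
    · intro hpr
      have := hs (a - r) (by
        unfold dif
        exact mem_image.2 ⟨r, mem_filter.2 ⟨mem_Icc.2 ⟨hr.pos, hrH⟩, hr⟩, rfl⟩) hpr
      omega
    · intro hrp
      have : a - r = q := by omega
      rw [this]
      exact hnq

end Pool.Agent.J6H13.GW
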