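import Pool.Agent.H362R2.RQ.Fin
import Pool.Agent.J6H13.GW.Box

set_option autoImplicit false

/-! Unconditional form of the Maynard-Tao theorem `StGW`. -/

namespace Pool.Agent.J6H13.GW

theorem stGW : StGW :=
  gw_of Pool.Agent.H378R2.sieveAsymp_holds Pool.Agent.H378R2.bvrel_holds Pool.Agent.H312R2.RG.weights

end Pool.Agent.J6H13.GW
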